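import Pool.Agent.H162R2.Sparse.Struct

/-!
# List edge colourings of sparse graphs
-/

set_option autoImplicit false
set_option linter.unusedSectionVars false

namespace Pool.Agent.H162R2.Sparse

open Finset

variable {V : Type} [Fintype V] [DecidableEq V]

/-- an edge colouring from lists, as a symmetric function on pairs -/
def LC (G : SimpleGraph V) (L : V → V → Finset ℕ) : Prop :=
  ∃ f : V → V → ℕ, (∀ a b, G.Adj a b → f a b = f b a) ∧ (∀ a b, G.Adj a b → f a b ∈ L a b) ∧
    (∀ a b c, G.Adj a b → G.Adj a c → b ≠ c → f a b ≠ f a c)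

/-- the graph without the edges meeting `X` -/
def cutX (G : SimpleGraph V) (X : Finset V) : SimpleGraph V :=
  G.deleteEdges {e | ∃ u ∈ X, u ∈ e}

theorem cutX_adj (G : SimpleGraph V) (X : Finset V) (a b : V) :
    (cutX G X).Adj a b ↔ G.Adj a b ∧ a ∉ X ∧ b ∉ X := by
  unfold cutX
  rw [SimpleGraph.deleteEdges_adj]
  simp only [Set.mem_setOf_eq, Sym2.mem_iff, not_exists, not_and, not_or]
  constructor
  · rintro ⟨h1, h2⟩
    exact ⟨h1, fun h => (h2 a h).1 rfl, fun h => (h2 b h).2 rfl⟩
  · rintro ⟨h1, h2, h3⟩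
    refine ⟨h1, fun x hx => ⟨?_, ?_⟩⟩
    · rintro rfl
      exact h2 hx
    · rintro rfl
      exact h3 hx

/-- the graph without the edge `u v` -/
def cutE (G : SimpleGraph V) (u v : V) : SimpleGraph V := G.deleteEdges {s(u, v)}

theorem cutE_adj (G : SimpleGraph V) (u v a b : V) :
    (cutE G u v).Adj a b ↔ G.Adj a b ∧ ¬ ((a = u ∧ b = v) ∨ (a = v ∧ b = u)) := by
  unfold cutE
  rw [SimpleGraph.deleteEdges_adj]
  simp only [Set.mem_singleton_iff, Sym2.eq_iff]

theorem ext_edge (G : SimpleGraph V) (u v : V) (huv : G.Adj u v) (L : V → V → Finset ℕ)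
    (hsym : ∀ a b, L a b = L b a) (hcard : dg G u + dg G v ≤ (L u v).card + 1)
    (IH : LC (cutE G u v) L) : LC G L := by
  classical
  obtain ⟨f, hf1, hf2, hf3⟩ := IH
  have hu : v ∈ nb G u := (mem_nb G u v).2 huv
  have hv : u ∈ nb G v := (mem_nb G v u).2 huv.symm
  have hu1 : ((nb G u).erase v).card + 1 = dg G u := Finset.card_erase_add_one hu
  have hv1 : ((nb G v).erase u).card + 1 = dg G v := Finset.card_erase_add_one hv
  obtain ⟨c, hc1, hc2⟩ : ∃ c ∈ L u v,
      c ∉ ((nb G u).erase v).image (f u) ∪ ((nb G v).erase u).image (f v) := by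
    apply Finset.exists_mem_notMem_of_card_lt_card
    have h1 := Finset.card_union_le (((nb G u).erase v).image (f u))
      (((nb G v).erase u).image (f v))
    have h2 := Finset.card_image_le (s := (nb G u).erase v) (f := f u)
    have h3 := Finset.card_image_le (s := (nb G v).erase u) (f := f v)
    omega
  rw [Finset.mem_union, not_or] at hc2
  have hcu : ∀ b, G.Adj u b → b ≠ v → f u b ≠ c := by
    intro b hb hbv h
    apply hc2.1
    rw [← h]
    exact Finset.mem_image_of_mem _ (Finset.mem_erase.2 ⟨hbv, (mem_nb G u b).2 hb⟩)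
  have hcv : ∀ b, G.Adj v b → b ≠ u → f v b ≠ c := by
    intro b hb hbv h
    apply hc2.2
    rw [← h]
    exact Finset.mem_image_of_mem _ (Finset.mem_erase.2 ⟨hbv, (mem_nb G v b).2 hb⟩)
  refine ⟨fun a b => if (a = u ∧ b = v) ∨ (a = v ∧ b = u) then c else f a b, ?_, ?_, ?_⟩
  · intro a b hab
    simp only
    by_cases h : (a = u ∧ b = v) ∨ (a = v ∧ b = u)
    · rw [if_pos h, if_pos (by tauto)]
    · rw [if_neg h, if_neg (by tauto)]
      exact hf1 a b ((cutE_adj G u v a b).2 ⟨hab, h⟩)
  · intro a b hab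
    simp only
    by_cases h : (a = u ∧ b = v) ∨ (a = v ∧ b = u)
    · rw [if_pos h]
      rcases h with ⟨rfl, rfl⟩ | ⟨rfl, rfl⟩
      · exact hc1
      · rw [hsym]
        exact hc1
    · rw [if_neg h]
      exact hf2 a b ((cutE_adj G u v a b).2 ⟨hab, h⟩)
  · intro a b d hab had hbd
    simp only
    by_cases h : (a = u ∧ b = v) ∨ (a = v ∧ b = u)
    · rw [if_pos h]
      by_cases h' : (a = u ∧ d = v) ∨ (a = v ∧ d = u)
      · exfalso
        have huv' := huv.ne
        rcases h with ⟨rfl, rfl⟩ | ⟨rfl, rfl⟩ <;> rcases h' with ⟨h1, rfl⟩ | ⟨h1, rfl⟩ <;> tauto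
      · rw [if_neg h']
        rcases h with ⟨rfl, rfl⟩ | ⟨rfl, rfl⟩
        · exact (hcu d had (fun h => hbd h.symm)).symm
        · exact (hcv d had (fun h => hbd h.symm)).symm
    · rw [if_neg h]
      by_cases h' : (a = u ∧ d = v) ∨ (a = v ∧ d = u)
      · rw [if_pos h']
        rcases h' with ⟨rfl, rfl⟩ | ⟨rfl, rfl⟩
        · exact hcu b hab hbd
        · exact hcv b hab hbd
      · rw [if_neg h']
        exact hf3 a b d ((cutE_adj G u v a b).2 ⟨hab, h⟩) ((cutE_adj G u v a d).2 ⟨had, h'⟩) hbd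

theorem hh_ES (G : SimpleGraph V) (X : Finset V) (w : V) :
    hh (ES G X) w = ((nb G w).filter (fun v => v ∈ X)).card := by
  classical
  unfold hh
  apply Finset.card_bij (fun e _ => e.1)
  · intro e he
    rw [Finset.mem_filter, mem_ES] at he
    rw [Finset.mem_filter, mem_nb, ← he.2]
    exact ⟨he.1.1.symm, he.1.2⟩
  · intro e he f hf h
    rw [Finset.mem_filter] at he hf
    exact Prod.ext h (he.2.trans hf.2.symm)
  · intro v hv
    rw [Finset.mem_filter, mem_nb] at hv
    refine ⟨(v, w), ?_, rfl⟩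
    rw [Finset.mem_filter, mem_ES]
    exact ⟨⟨hv.1.symm, hv.2⟩, rfl⟩

theorem dg_split (G : SimpleGraph V) (X : Finset V) (w : V) :
    hh (ES G X) w + ((nb G w).filter (fun v => ¬ v ∈ X)).card = dg G w := by
  classical
  rw [hh_ES]
  exact Finset.card_filter_add_card_filter_not (s := nb G w) (fun v => v ∈ X)

theorem ext_bip (G : SimpleGraph V) (X : Finset V) (D : ℕ) (L : V → V → Finset ℕ)
    (hX : ∀ u ∈ X, ∀ v ∈ X, ¬ G.Adj u v)
    (hθ : ∀ u, ∑ e ∈ (ES G X).filter (fun e => e.1 = u), (1 / (hh (ES G X) e.2 : ℚ)) ≤ 1 / 16)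
    (hD : ∀ v, dg G v ≤ D) (hL : ∀ a b, G.Adj a b → D ≤ (L a b).card)
    (hsym : ∀ a b, L a b = L b a) (IH : LC (cutX G X) L) : LC G L := by
  classical
  obtain ⟨f, hf1, hf2, hf3⟩ := IH
  let L' : V × V → Finset ℕ := fun e =>
    L e.1 e.2 \ ((nb G e.2).filter (fun v => ¬ v ∈ X)).image (f e.2)
  obtain ⟨col, hc1, hc2⟩ := bip_list (ES G X) hθ L' (by
    intro e he
    have h1 := dg_split G X e.2
    have h2 := Finset.card_image_le (s := (nb G e.2).filter (fun v => ¬ v ∈ X)) (f := f e.2)
    have h3 := Finset.le_card_sdiff (((nb G e.2).filter (fun v => ¬ v ∈ X)).image (f e.2))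
      (L e.1 e.2)
    have h4 := hL e.1 e.2 ((mem_ES G X e).1 he).1
    have h5 := hD e.2
    simp only [L']
    omega)
  have hcf : ∀ a b d, a ∉ X → b ∈ X → d ∉ X → G.Adj a b → G.Adj a d → col (b, a) ≠ f a d := by
    intro a b d ha hb hd hab had h
    have h1 := hc1 (b, a) ((mem_ES G X (b, a)).2 ⟨hab.symm, hb⟩)
    simp only [L'] at h1
    rw [Finset.mem_sdiff] at h1
    apply h1.2
    rw [h]
    exact Finset.mem_image_of_mem _ (Finset.mem_filter.2 ⟨(mem_nb G a d).2 had, hd⟩)
  refine ⟨fun a b => if a ∈ X then col (a, b) else if b ∈ X then col (b, a) else f a b,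
    ?_, ?_, ?_⟩
  · intro a b hab
    simp only
    by_cases ha : a ∈ X
    · have hb : b ∉ X := fun hb => hX a ha b hb hab
      rw [if_pos ha, if_neg hb, if_pos ha]
    · by_cases hb : b ∈ X
      · rw [if_neg ha, if_pos hb, if_pos hb]
      · rw [if_neg ha, if_neg hb, if_neg hb, if_neg ha]
        exact hf1 a b ((cutX_adj G X a b).2 ⟨hab, ha, hb⟩)
  · intro a b hab
    simp only
    by_cases ha : a ∈ X
    · rw [if_pos ha]
      have h1 := hc1 (a, b) ((mem_ES G X (a, b)).2 ⟨hab, ha⟩)
      simp only [L'] at h1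
      exact (Finset.mem_sdiff.1 h1).1
    · by_cases hb : b ∈ X
      · rw [if_neg ha, if_pos hb]
        have h1 := hc1 (b, a) ((mem_ES G X (b, a)).2 ⟨hab.symm, hb⟩)
        simp only [L'] at h1
        rw [hsym]
        exact (Finset.mem_sdiff.1 h1).1
      · rw [if_neg ha, if_neg hb]
        exact hf2 a b ((cutX_adj G X a b).2 ⟨hab, ha, hb⟩)
  · intro a b d hab had hbd
    simp only
    by_cases ha : a ∈ X
    · rw [if_pos ha, if_pos ha]
      apply hc2 _ ((mem_ES G X (a, b)).2 ⟨hab, ha⟩) _ ((mem_ES G X (a, d)).2 ⟨had, ha⟩)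
      · intro h
        exact hbd (Prod.ext_iff.1 h).2
      · left
        rfl
    · rw [if_neg ha, if_neg ha]
      by_cases hb : b ∈ X
      · rw [if_pos hb]
        by_cases hd : d ∈ X
        · rw [if_pos hd]
          apply hc2 _ ((mem_ES G X (b, a)).2 ⟨hab.symm, hb⟩) _
            ((mem_ES G X (d, a)).2 ⟨had.symm, hd⟩)
          · intro h
            exact hbd (Prod.ext_iff.1 h).1
          · right
            rfl
        · rw [if_neg hd]
          exact hcf a b d ha hb hd hab had
      · rw [if_neg hb]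
        by_cases hd : d ∈ X
        · rw [if_pos hd]
          exact (hcf a d b ha hd hb had hab).symm
        · rw [if_neg hd]
          exact hf3 a b d ((cutX_adj G X a b).2 ⟨hab, ha, hb⟩)
            ((cutX_adj G X a d).2 ⟨had, ha, hd⟩) hbd

theorem pr_mono {G H : SimpleGraph V} (h : ∀ a b, H.Adj a b → G.Adj a b) : pr H ⊆ pr G := by
  intro e he
  rw [mem_pr] at he ⊢
  exact h _ _ he

theorem dg_mono {G H : SimpleGraph V} (h : ∀ a b, H.Adj a b → G.Adj a b) (v : V) :
    dg H v ≤ dg G v := by
  unfold dg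
  apply Finset.card_le_card
  intro w hw
  rw [mem_nb] at hw ⊢
  exact h _ _ hw

theorem Dens_mono {G H : SimpleGraph V} (h : ∀ a b, H.Adj a b → G.Adj a b) {a : ℝ}
    (hG : Dens G a) : Dens H a := by
  intro X
  refine le_trans ?_ (hG X)
  have h1 := Finset.card_le_card
    (Finset.filter_subset_filter (fun e : V × V => e.1 ∈ X ∧ e.2 ∈ X) (pr_mono h))
  exact_mod_cast h1

theorem pr_card_lt {G H : SimpleGraph V} (h : ∀ a b, H.Adj a b → G.Adj a b) (u v : V)
    (h1 : G.Adj u v) (h2 : ¬ H.Adj u v) : (pr H).card < (pr G).card := by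
  apply Finset.card_lt_card
  refine ⟨pr_mono h, ?_⟩
  intro h3
  have h4 := h3 ((mem_pr G (u, v)).2 h1)
  rw [mem_pr] at h4
  exact h2 h4

theorem main_edge (D : ℕ) (a : ℝ) (ha : 34 * a * (1 + Real.log D) ≤ D) (L : V → V → Finset ℕ)
    (hsym : ∀ a b, L a b = L b a) :
    ∀ (n : ℕ) (G : SimpleGraph V), (pr G).card = n → (∀ v, dg G v ≤ D) → Dens G a →
      (∀ u v, G.Adj u v → D ≤ (L u v).card) → LC G L := by
  classical
  intro n
  induction n using Nat.strong_induction_on with
  | _ n ih =>
    intro G hn hD hdens hL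
    by_cases hedge : ∃ u v, G.Adj u v
    · by_cases hsmall : ∃ u v, G.Adj u v ∧ dg G u + dg G v ≤ D + 1
      · obtain ⟨u, v, huv, hdeg⟩ := hsmall
        have hmono : ∀ a b, (cutE G u v).Adj a b → G.Adj a b := by
          intro a b h
          exact ((cutE_adj G u v a b).1 h).1
        apply ext_edge G u v huv L hsym
        · have := hL u v huv
          omega
        · apply ih _ _ (cutE G u v) rfl
          · intro w
            exact (dg_mono hmono w).trans (hD w)
          · exact Dens_mono hmono hdens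
          · intro x y hxy
            exact hL x y (hmono x y hxy)
          · rw [← hn]
            apply pr_card_lt hmono u v huv
            rw [cutE_adj]
            tauto
      · push Not at hsmall
        obtain ⟨X, hX1, hX2, hX3, hX4⟩ := struct G D a hD hdens ha hedge (by
          intro u v huv _
          have := hsmall u v huv
          omega)
        have hmono : ∀ a b, (cutX G X).Adj a b → G.Adj a b := by
          intro a b h
          exact ((cutX_adj G X a b).1 h).1
        apply ext_bip G X D L hX3 hX4 hD hL hsym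
        apply ih _ _ (cutX G X) rfl
        · intro w
          exact (dg_mono hmono w).trans (hD w)
        · exact Dens_mono hmono hdens
        · intro x y hxy
          exact hL x y (hmono x y hxy)
        · rw [← hn]
          obtain ⟨u, hu⟩ := hX1
          have h1 := (hX2 u hu).1
          unfold dg at h1
          rw [Nat.one_le_iff_ne_zero, Finset.card_ne_zero] at h1
          obtain ⟨v, hv⟩ := h1
          rw [mem_nb] at hv
          apply pr_card_lt hmono u v hv
          rw [cutX_adj]
          tauto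
    · push Not at hedge
      exact ⟨fun _ _ => 0, fun x y h => absurd h (hedge x y), fun x y h => absurd h (hedge x y),
        fun x y z h => absurd h (hedge x y)⟩

end Pool.Agent.H162R2.Sparse
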