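import Pool.Agent.H162R2.Sparse.Final

/-!
# List (p,1)-total labellings of sparse graphs
-/

set_option autoImplicit false
set_option linter.unusedSectionVars false

namespace Pool.Agent.H162R2.Sparse

open Finset

variable {V : Type} [Fintype V] [DecidableEq V]

/-- `x` and `y` differ by at least `p` -/
def Far (p x y : ℕ) : Prop := x + p ≤ y ∨ y + p ≤ x

/-- the values which are closer than `p` to `c` -/
def blk (p c : ℕ) : Finset ℕ := Finset.Ico (c + 1 - p) (c + p)

theorem far_of_notMem {p x c : ℕ} (h : x ∉ blk p c) : Far p x c := by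
  unfold blk at h
  rw [Finset.mem_Ico] at h
  unfold Far
  omega

theorem Far.symm {p x y : ℕ} (h : Far p x y) : Far p y x := by
  unfold Far at *
  tauto

theorem card_blk (p : ℕ) (hp : 1 ≤ p) (c : ℕ) : (blk p c).card + 1 ≤ 2 * p := by
  unfold blk
  rw [Nat.card_Ico]
  omega

/-- a (p,1)-total labelling from lists -/
def LP (p : ℕ) (G : SimpleGraph V) (L : V → V → Finset ℕ) (M : V → Finset ℕ) : Prop :=
  ∃ (f : V → V → ℕ) (g : V → ℕ), (∀ a b, G.Adj a b → f a b = f b a) ∧
    (∀ a b, G.Adj a b → f a b ∈ L a b) ∧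
    (∀ a b c, G.Adj a b → G.Adj a c → b ≠ c → f a b ≠ f a c) ∧
    (∀ a, g a ∈ M a) ∧ (∀ a b, G.Adj a b → g a ≠ g b) ∧
    (∀ a b, G.Adj a b → Far p (g a) (f a b))

theorem card_biUnion_blk (p : ℕ) (hp : 1 ≤ p) (A : Finset V) (h : V → ℕ) :
    (A.biUnion (fun b => blk p (h b))).card ≤ A.card * (2 * p - 1) := by
  classical
  apply Finset.card_biUnion_le_card_mul
  intro b _
  have := card_blk p hp (h b)
  omega

/-- choosing a label for a vertex of small degree -/
theorem choose_label (p : ℕ) (hp : 1 ≤ p) (A : Finset V) (g h : V → ℕ) (M : Finset ℕ)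
    (hM : 2 * p * A.card < M.card) :
    ∃ m ∈ M, (∀ b ∈ A, g b ≠ m) ∧ ∀ b ∈ A, Far p m (h b) := by
  classical
  obtain ⟨m, hm1, hm2⟩ : ∃ m ∈ M, m ∉ A.image g ∪ A.biUnion (fun b => blk p (h b)) := by
    apply Finset.exists_mem_notMem_of_card_lt_card
    have h1 := Finset.card_union_le (A.image g) (A.biUnion (fun b => blk p (h b)))
    have h2 := Finset.card_image_le (s := A) (f := g)
    have h3 := card_biUnion_blk p hp A h
    have h4 : A.card + A.card * (2 * p - 1) = 2 * p * A.card := by
      obtain ⟨q, hq⟩ : ∃ q, p = q + 1 := ⟨p - 1, by omega⟩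
      subst hq
      have : 2 * (q + 1) - 1 = 2 * q + 1 := by omega
      rw [this]
      ring
    omega
  rw [Finset.mem_union, not_or] at hm2
  refine ⟨m, hm1, ?_, ?_⟩
  · intro b hb h
    apply hm2.1
    rw [← h]
    exact Finset.mem_image_of_mem _ hb
  · intro b hb
    apply far_of_notMem
    intro h
    apply hm2.2
    rw [Finset.mem_biUnion]
    exact ⟨b, hb, h⟩

theorem ext_edgeP (p : ℕ) (hp : 1 ≤ p) (G : SimpleGraph V) (u v : V) (huv : G.Adj u v)
    (L : V → V → Finset ℕ)
    (M : V → Finset ℕ) (hsym : ∀ a b, L a b = L b a)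
    (hcard : dg G u + dg G v + 2 * p ≤ (L u v).card + 2)
    (hM : 2 * p * dg G u < (M u).card) (IH : LP p (cutE G u v) L M) : LP p G L M := by
  classical
  obtain ⟨f, g, hf1, hf2, hf3, hg1, hg2, hg3⟩ := IH
  have hu : v ∈ nb G u := (mem_nb G u v).2 huv
  have hv : u ∈ nb G v := (mem_nb G v u).2 huv.symm
  have hu1 : ((nb G u).erase v).card + 1 = dg G u := Finset.card_erase_add_one hu
  have hv1 : ((nb G v).erase u).card + 1 = dg G v := Finset.card_erase_add_one hv
  obtain ⟨c, hc1, hc2⟩ : ∃ c ∈ L u v,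
      c ∉ (((nb G u).erase v).image (f u) ∪ ((nb G v).erase u).image (f v)) ∪ blk p (g v) := by
    apply Finset.exists_mem_notMem_of_card_lt_card
    have h0 := Finset.card_union_le
      (((nb G u).erase v).image (f u) ∪ ((nb G v).erase u).image (f v)) (blk p (g v))
    have h1 := Finset.card_union_le (((nb G u).erase v).image (f u))
      (((nb G v).erase u).image (f v))
    have h2 := Finset.card_image_le (s := (nb G u).erase v) (f := f u)
    have h3 := Finset.card_image_le (s := (nb G v).erase u) (f := f v)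
    have h4 := card_blk p hp (g v)
    omega
  rw [Finset.mem_union, Finset.mem_union, not_or, not_or] at hc2
  have hcu : ∀ b, G.Adj u b → b ≠ v → f u b ≠ c := by
    intro b hb hbv h
    apply hc2.1.1
    rw [← h]
    exact Finset.mem_image_of_mem _ (Finset.mem_erase.2 ⟨hbv, (mem_nb G u b).2 hb⟩)
  have hcv : ∀ b, G.Adj v b → b ≠ u → f v b ≠ c := by
    intro b hb hbv h
    apply hc2.1.2
    rw [← h]
    exact Finset.mem_image_of_mem _ (Finset.mem_erase.2 ⟨hbv, (mem_nb G v b).2 hb⟩)
  let f' : V → V → ℕ := fun a b => if (a = u ∧ b = v) ∨ (a = v ∧ b = u) then c else f a b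
  obtain ⟨m, hm1, hm2, hm3⟩ := choose_label p hp (nb G u) g (f' u) (M u) hM
  have hmg : ∀ b, G.Adj u b → g b ≠ m := fun b hb => hm2 b ((mem_nb G u b).2 hb)
  have hmf : ∀ b, G.Adj u b → Far p m (f' u b) := fun b hb => hm3 b ((mem_nb G u b).2 hb)
  have hf'sym : ∀ a b, G.Adj a b → f' a b = f' b a := by
    intro a b hab
    simp only [f']
    by_cases h : (a = u ∧ b = v) ∨ (a = v ∧ b = u)
    · rw [if_pos h, if_pos (by tauto)]
    · rw [if_neg h, if_neg (by tauto)]
      exact hf1 a b ((cutE_adj G u v a b).2 ⟨hab, h⟩)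
  refine ⟨f', fun a => if a = u then m else g a, hf'sym, ?_, ?_, ?_, ?_, ?_⟩
  · intro a b hab
    simp only [f']
    by_cases h : (a = u ∧ b = v) ∨ (a = v ∧ b = u)
    · rw [if_pos h]
      rcases h with ⟨rfl, rfl⟩ | ⟨rfl, rfl⟩
      · exact hc1
      · rw [hsym]
        exact hc1
    · rw [if_neg h]
      exact hf2 a b ((cutE_adj G u v a b).2 ⟨hab, h⟩)
  · intro a b d hab had hbd
    simp only [f']
    by_cases h : (a = u ∧ b = v) ∨ (a = v ∧ b = u)
    · rw [if_pos h]
      by_cases h' : (a = u ∧ d = v) ∨ (a = v ∧ d = u)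
      · exfalso
        have huv' := huv.ne
        rcases h with ⟨rfl, rfl⟩ | ⟨rfl, rfl⟩ <;> rcases h' with ⟨h1, rfl⟩ | ⟨h1, rfl⟩ <;> tauto
      · rw [if_neg h']
        rcases h with ⟨rfl, rfl⟩ | ⟨rfl, rfl⟩
        · exact (hcu d had (fun h => hbd h.symm)).symm
        · exact (hcv d had (fun h => hbd h.symm)).symm
    · rw [if_neg h]
      by_cases h' : (a = u ∧ d = v) ∨ (a = v ∧ d = u)
      · rw [if_pos h']
        rcases h' with ⟨rfl, rfl⟩ | ⟨rfl, rfl⟩
        · exact hcu b hab hbd
        · exact hcv b hab hbd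
      · rw [if_neg h']
        exact hf3 a b d ((cutE_adj G u v a b).2 ⟨hab, h⟩) ((cutE_adj G u v a d).2 ⟨had, h'⟩) hbd
  · intro a
    simp only
    by_cases ha : a = u
    · rw [if_pos ha, ha]
      exact hm1
    · rw [if_neg ha]
      exact hg1 a
  · intro a b hab
    simp only
    by_cases ha : a = u
    · have hb : b ≠ u := by
        rintro rfl
        exact hab.ne ha
      rw [if_pos ha, if_neg hb]
      rw [ha] at hab
      exact (hmg b hab).symm
    · rw [if_neg ha]
      by_cases hb : b = u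
      · rw [if_pos hb]
        rw [hb] at hab
        exact hmg a hab.symm
      · rw [if_neg hb]
        exact hg2 a b ((cutE_adj G u v a b).2 ⟨hab, by tauto⟩)
  · intro a b hab
    simp only
    by_cases ha : a = u
    · rw [if_pos ha]
      rw [ha] at hab ⊢
      exact hmf b hab
    · rw [if_neg ha]
      simp only [f']
      by_cases h : (a = u ∧ b = v) ∨ (a = v ∧ b = u)
      · rw [if_pos h]
        rcases h with ⟨h1, _⟩ | ⟨h1, _⟩
        · exact absurd h1 ha
        · rw [h1]
          exact (far_of_notMem hc2.2).symm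
      · rw [if_neg h]
        exact hg3 a b ((cutE_adj G u v a b).2 ⟨hab, h⟩)

theorem ext_bipP (p : ℕ) (hp : 1 ≤ p) (G : SimpleGraph V) (X : Finset V) (D : ℕ)
    (L : V → V → Finset ℕ)
    (M : V → Finset ℕ) (hX : ∀ u ∈ X, ∀ v ∈ X, ¬ G.Adj u v)
    (hθ : ∀ u, ∑ e ∈ (ES G X).filter (fun e => e.1 = u), (1 / (hh (ES G X) e.2 : ℚ)) ≤ 1 / 16)
    (hD : ∀ v, dg G v ≤ D) (hL : ∀ a b, G.Adj a b → D + 2 * p ≤ (L a b).card + 1)
    (hM : ∀ u ∈ X, 2 * p * dg G u < (M u).card)
    (hsym : ∀ a b, L a b = L b a) (IH : LP p (cutX G X) L M) : LP p G L M := by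
  classical
  obtain ⟨f, g, hf1, hf2, hf3, hg1, hg2, hg3⟩ := IH
  let L' : V × V → Finset ℕ := fun e =>
    L e.1 e.2 \ (((nb G e.2).filter (fun v => ¬ v ∈ X)).image (f e.2) ∪ blk p (g e.2))
  obtain ⟨col, hc1, hc2⟩ := bip_list (ES G X) hθ L' (by
    intro e he
    have h1 := dg_split G X e.2
    have h2 := Finset.card_image_le (s := (nb G e.2).filter (fun v => ¬ v ∈ X)) (f := f e.2)
    have h3 := Finset.le_card_sdiff
      (((nb G e.2).filter (fun v => ¬ v ∈ X)).image (f e.2) ∪ blk p (g e.2)) (L e.1 e.2)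
    have h4 := hL e.1 e.2 ((mem_ES G X e).1 he).1
    have h5 := hD e.2
    have h6 := Finset.card_union_le (((nb G e.2).filter (fun v => ¬ v ∈ X)).image (f e.2))
      (blk p (g e.2))
    have h7 := card_blk p hp (g e.2)
    simp only [L']
    omega)
  have hcf : ∀ a b d, a ∉ X → b ∈ X → d ∉ X → G.Adj a b → G.Adj a d → col (b, a) ≠ f a d := by
    intro a b d ha hb hd hab had h
    have h1 := hc1 (b, a) ((mem_ES G X (b, a)).2 ⟨hab.symm, hb⟩)
    simp only [L'] at h1
    rw [Finset.mem_sdiff] at h1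
    apply h1.2
    rw [h]
    exact Finset.mem_union_left _
      (Finset.mem_image_of_mem _ (Finset.mem_filter.2 ⟨(mem_nb G a d).2 had, hd⟩))
  have hcg : ∀ a b, b ∈ X → G.Adj a b → Far p (g a) (col (b, a)) := by
    intro a b hb hab
    have h1 := hc1 (b, a) ((mem_ES G X (b, a)).2 ⟨hab.symm, hb⟩)
    simp only [L'] at h1
    rw [Finset.mem_sdiff] at h1
    apply Far.symm
    apply far_of_notMem
    intro h
    exact h1.2 (Finset.mem_union_right _ h)
  let f' : V → V → ℕ := fun a b => if a ∈ X then col (a, b) else if b ∈ X then col (b, a) else f a b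
  have hm : ∀ u, ∃ m, u ∈ X → m ∈ M u ∧ (∀ b ∈ nb G u, g b ≠ m) ∧
      ∀ b ∈ nb G u, Far p m (f' u b) := by
    intro u
    by_cases hu : u ∈ X
    · obtain ⟨m, hm⟩ := choose_label p hp (nb G u) g (f' u) (M u) (hM u hu)
      exact ⟨m, fun _ => ⟨hm.1, hm.2.1, hm.2.2⟩⟩
    · exact ⟨0, fun h => absurd h hu⟩
  choose m hm using hm
  have hm1 : ∀ u, u ∈ X → m u ∈ M u := fun u hu => (hm u hu).1
  have hmg : ∀ u b, u ∈ X → G.Adj u b → g b ≠ m u :=
    fun u b hu hb => (hm u hu).2.1 b ((mem_nb G u b).2 hb)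
  have hmf : ∀ u b, u ∈ X → G.Adj u b → Far p (m u) (f' u b) :=
    fun u b hu hb => (hm u hu).2.2 b ((mem_nb G u b).2 hb)
  refine ⟨f', fun a => if a ∈ X then m a else g a, ?_, ?_, ?_, ?_, ?_, ?_⟩
  · intro a b hab
    simp only [f']
    by_cases ha : a ∈ X
    · have hb : b ∉ X := fun hb => hX a ha b hb hab
      rw [if_pos ha, if_neg hb, if_pos ha]
    · by_cases hb : b ∈ X
      · rw [if_neg ha, if_pos hb, if_pos hb]
      · rw [if_neg ha, if_neg hb, if_neg hb, if_neg ha]
        exact hf1 a b ((cutX_adj G X a b).2 ⟨hab, ha, hb⟩)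
  · intro a b hab
    simp only [f']
    by_cases ha : a ∈ X
    · rw [if_pos ha]
      have h1 := hc1 (a, b) ((mem_ES G X (a, b)).2 ⟨hab, ha⟩)
      simp only [L'] at h1
      exact (Finset.mem_sdiff.1 h1).1
    · by_cases hb : b ∈ X
      · rw [if_neg ha, if_pos hb]
        have h1 := hc1 (b, a) ((mem_ES G X (b, a)).2 ⟨hab.symm, hb⟩)
        simp only [L'] at h1
        rw [hsym]
        exact (Finset.mem_sdiff.1 h1).1
      · rw [if_neg ha, if_neg hb]
        exact hf2 a b ((cutX_adj G X a b).2 ⟨hab, ha, hb⟩)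
  · intro a b d hab had hbd
    simp only [f']
    by_cases ha : a ∈ X
    · rw [if_pos ha, if_pos ha]
      apply hc2 _ ((mem_ES G X (a, b)).2 ⟨hab, ha⟩) _ ((mem_ES G X (a, d)).2 ⟨had, ha⟩)
      · intro h
        exact hbd (Prod.ext_iff.1 h).2
      · left
        rfl
    · rw [if_neg ha, if_neg ha]
      by_cases hb : b ∈ X
      · rw [if_pos hb]
        by_cases hd : d ∈ X
        · rw [if_pos hd]
          apply hc2 _ ((mem_ES G X (b, a)).2 ⟨hab.symm, hb⟩) _
            ((mem_ES G X (d, a)).2 ⟨had.symm, hd⟩)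
          · intro h
            exact hbd (Prod.ext_iff.1 h).1
          · right
            rfl
        · rw [if_neg hd]
          exact hcf a b d ha hb hd hab had
      · rw [if_neg hb]
        by_cases hd : d ∈ X
        · rw [if_pos hd]
          exact (hcf a d b ha hd hb had hab).symm
        · rw [if_neg hd]
          exact hf3 a b d ((cutX_adj G X a b).2 ⟨hab, ha, hb⟩)
            ((cutX_adj G X a d).2 ⟨had, ha, hd⟩) hbd
  · intro a
    simp only
    by_cases ha : a ∈ X
    · rw [if_pos ha]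
      exact hm1 a ha
    · rw [if_neg ha]
      exact hg1 a
  · intro a b hab
    simp only
    by_cases ha : a ∈ X
    · have hb : b ∉ X := fun hb => hX a ha b hb hab
      rw [if_pos ha, if_neg hb]
      exact (hmg a b ha hab).symm
    · rw [if_neg ha]
      by_cases hb : b ∈ X
      · rw [if_pos hb]
        exact hmg b a hb hab.symm
      · rw [if_neg hb]
        exact hg2 a b ((cutX_adj G X a b).2 ⟨hab, ha, hb⟩)
  · intro a b hab
    simp only
    by_cases ha : a ∈ X
    · rw [if_pos ha]
      exact hmf a b ha hab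
    · rw [if_neg ha]
      simp only [f']
      rw [if_neg ha]
      by_cases hb : b ∈ X
      · rw [if_pos hb]
        exact hcg a b hb hab
      · rw [if_neg hb]
        exact hg3 a b ((cutX_adj G X a b).2 ⟨hab, ha, hb⟩)

theorem main_p (p : ℕ) (hp : 1 ≤ p) (D : ℕ) (a : ℝ) (ha : 34 * a * (1 + Real.log D) ≤ D)
    (hap : 4 * p * a ≤ D)
    (L : V → V → Finset ℕ) (M : V → Finset ℕ)
    (hsym : ∀ a b, L a b = L b a) (hM : ∀ v, D + 2 * p ≤ (M v).card + 1) :
    ∀ (n : ℕ) (G : SimpleGraph V), (pr G).card = n → (∀ v, dg G v ≤ D) → Dens G a →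
      (∀ u v, G.Adj u v → D + 2 * p ≤ (L u v).card + 1) → LP p G L M := by
  classical
  intro n
  induction n using Nat.strong_induction_on with
  | _ n ih =>
    intro G hn hD hdens hL
    by_cases hedge : ∃ u v, G.Adj u v
    · by_cases hsmall : ∃ u v, G.Adj u v ∧ dg G u + dg G v ≤ D + 1 ∧ 2 * p * dg G u ≤ D
      · obtain ⟨u, v, huv, hdeg, hu⟩ := hsmall
        have hmono : ∀ a b, (cutE G u v).Adj a b → G.Adj a b := by
          intro a b h
          exact ((cutE_adj G u v a b).1 h).1
        apply ext_edgeP p hp G u v huv L M hsym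
        · have := hL u v huv
          omega
        · have := hM u
          omega
        · apply ih _ _ (cutE G u v) rfl
          · intro w
            exact (dg_mono hmono w).trans (hD w)
          · exact Dens_mono hmono hdens
          · intro x y hxy
            exact hL x y (hmono x y hxy)
          · rw [← hn]
            apply pr_card_lt hmono u v huv
            rw [cutE_adj]
            tauto
      · push Not at hsmall
        have ha0 : ∀ u v, G.Adj u v → (dg G u : ℝ) ≤ 2 * a → 2 * p * dg G u ≤ D := by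
          intro u v huv h
          have h0 : (0 : ℝ) ≤ p := by positivity
          have h1 : (2 * p * (dg G u : ℝ)) ≤ D := by nlinarith
          exact_mod_cast h1
        obtain ⟨X, hX1, hX2, hX3, hX4⟩ := struct G D a hD hdens ha hedge (by
          intro u v huv h
          have h1 := hsmall u v huv
          have h2 := ha0 u v huv h
          by_contra hcon
          have h3 := h1 (by omega)
          omega)
        have hmono : ∀ a b, (cutX G X).Adj a b → G.Adj a b := by
          intro a b h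
          exact ((cutX_adj G X a b).1 h).1
        refine ext_bipP p hp G X D L M hX3 hX4 hD hL ?_ hsym ?_
        · intro u hu
          have h1 := (hX2 u hu).1
          unfold dg at h1
          rw [Nat.one_le_iff_ne_zero, Finset.card_ne_zero] at h1
          obtain ⟨v, hv⟩ := h1
          rw [mem_nb] at hv
          have h2 := ha0 u v hv (hX2 u hu).2.1
          have := hM u
          omega
        apply ih _ _ (cutX G X) rfl
        · intro w
          exact (dg_mono hmono w).trans (hD w)
        · exact Dens_mono hmono hdens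
        · intro x y hxy
          exact hL x y (hmono x y hxy)
        · rw [← hn]
          obtain ⟨u, hu⟩ := hX1
          have h1 := (hX2 u hu).1
          unfold dg at h1
          rw [Nat.one_le_iff_ne_zero, Finset.card_ne_zero] at h1
          obtain ⟨v, hv⟩ := h1
          rw [mem_nb] at hv
          apply pr_card_lt hmono u v hv
          rw [cutX_adj]
          tauto
    · push Not at hedge
      have hM0 : ∀ v, ∃ m, m ∈ M v := by
        intro v
        have h1 := hM v
        have h2 : 0 < (M v).card := by omega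
        exact Finset.card_pos.1 h2
      choose g hg using hM0
      exact ⟨fun _ _ => 0, g, fun x y h => absurd h (hedge x y),
        fun x y h => absurd h (hedge x y), fun x y z h => absurd h (hedge x y), hg,
        fun x y h => absurd h (hedge x y), fun x y h => absurd h (hedge x y)⟩

theorem p_sparse (p : ℕ) (hp : 1 ≤ p) (G : SimpleGraph V) (D : ℕ)
    (hD : ∀ v, (G.neighborSet v).ncard ≤ D)
    (a : ℝ) (hmad : ∀ X : Finset V,
      ({e : V × V | e.1 ∈ X ∧ e.2 ∈ X ∧ G.Adj e.1 e.2}.ncard : ℝ) ≤ a * X.card)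
    (ha : 34 * a * (1 + Real.log D) ≤ D) (hap : 4 * p * a ≤ D)
    (L : V ⊕ G.edgeSet → Finset ℕ) (hL : ∀ x, D + 2 * p ≤ (L x).card + 1) :
    ∃ c : V ⊕ G.edgeSet → ℕ,
      (∀ x, c x ∈ L x) ∧
      (∀ u v : V, G.Adj u v → c (Sum.inl u) ≠ c (Sum.inl v)) ∧
      (∀ e f : G.edgeSet, e ≠ f →
        (∃ v : V, v ∈ (e : Sym2 V) ∧ v ∈ (f : Sym2 V)) →
          c (Sum.inr e) ≠ c (Sum.inr f)) ∧
      (∀ (v : V) (e : G.edgeSet), v ∈ (e : Sym2 V) →
          Far p (c (Sum.inl v)) (c (Sum.inr e))) := by
  classical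
  let L' : V → V → Finset ℕ := fun a b =>
    if h : G.Adj a b then L (Sum.inr ⟨s(a, b), h⟩) else ∅
  have hL'1 : ∀ a b, L' a b = L' b a := by
    intro a b
    simp only [L']
    by_cases h : G.Adj a b
    · rw [dif_pos h, dif_pos h.symm]
      congr 2
      exact Subtype.ext Sym2.eq_swap
    · rw [dif_neg h, dif_neg (fun h' => h h'.symm)]
  have hL'2 : ∀ u v (h : G.Adj u v), L' u v = L (Sum.inr ⟨s(u, v), h⟩) := by
    intro u v h
    simp only [L']
    rw [dif_pos h]
  obtain ⟨f, g, hf1, hf2, hf3, hg1, hg2, hg3⟩ := main_p p hp D a ha hap L'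
    (fun v => L (Sum.inl v))
    hL'1 (fun v => hL _) _ G rfl (fun v => by rw [dg_eq_ncard]; exact hD v)
    (dens_of_ncard G a hmad) (by
    intro u v huv
    rw [hL'2 u v huv]
    exact hL _)
  have hex : ∀ e : G.edgeSet, ∃ p : V × V, s(p.1, p.2) = e.1 := by
    rintro ⟨e, he⟩
    induction e using Sym2.ind with
    | _ a b => exact ⟨(a, b), rfl⟩
  choose P hP using hex
  have hadjP : ∀ e : G.edgeSet, G.Adj (P e).1 (P e).2 := by
    intro e
    have h1 := e.2
    rw [← hP e] at h1
    exact h1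
  have key : ∀ (e : G.edgeSet) (u v : V), s(u, v) = e.1 → f (P e).1 (P e).2 = f u v := by
    intro e u v huv
    have h1 := hP e
    rw [← huv] at h1
    rcases Sym2.eq_iff.1 h1 with ⟨h2, h3⟩ | ⟨h2, h3⟩
    · rw [h2, h3]
    · rw [hf1 _ _ (hadjP e), h2, h3]
  let c : V ⊕ G.edgeSet → ℕ := fun x => Sum.elim g (fun e => f (P e).1 (P e).2) x
  have hcl : ∀ v, c (Sum.inl v) = g v := fun v => rfl
  have hcr : ∀ e, c (Sum.inr e) = f (P e).1 (P e).2 := fun v => rfl
  refine ⟨c, ?_, ?_, ?_, ?_⟩
  · intro x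
    rcases x with v | e
    · rw [hcl]
      exact hg1 v
    · rw [hcr]
      have h1 := hf2 _ _ (hadjP e)
      rw [hL'2 _ _ (hadjP e)] at h1
      have h2 : (⟨s((P e).1, (P e).2), hadjP e⟩ : G.edgeSet) = e := Subtype.ext (hP e)
      rwa [h2] at h1
  · intro u v huv
    rw [hcl, hcl]
    exact hg2 u v huv
  · intro e e' hne he
    obtain ⟨x, hx, hx'⟩ := he
    obtain ⟨b, hb⟩ := Sym2.mem_iff_exists.1 hx
    obtain ⟨d, hd⟩ := Sym2.mem_iff_exists.1 hx'
    rw [hcr, hcr, key e x b hb.symm, key e' x d hd.symm]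
    have h1 : G.Adj x b := by
      have := e.2
      rw [hb] at this
      exact this
    have h2 : G.Adj x d := by
      have := e'.2
      rw [hd] at this
      exact this
    apply hf3 x b d h1 h2
    rintro rfl
    apply hne
    exact Subtype.ext (hb.trans hd.symm)
  · intro v e hv
    obtain ⟨b, hb⟩ := Sym2.mem_iff_exists.1 hv
    rw [hcl, hcr, key e v b hb.symm]
    have h1 : G.Adj v b := by
      have := e.2
      rw [hb] at this
      exact this
    exact hg3 v b h1

end Pool.Agent.H162R2.Sparse
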