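import Pool.Agent.H162R2.Sparse.Main
import Pool.Agent.H162R2.LEC.Circ

/-!
# Sparse graphs: edge choosability in the frozen form
-/

set_option autoImplicit false
set_option linter.unusedSectionVars false

namespace Pool.Agent.H162R2.Sparse

open Finset Pool.Agent.H921R2.LEC

variable {V : Type} [Fintype V] [DecidableEq V]

theorem dg_eq_ncard (G : SimpleGraph V) (v : V) : dg G v = (G.neighborSet v).ncard := by
  classical
  rw [dg, ← Set.ncard_coe_finset]
  congr 1
  ext w
  simp [mem_nb]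

theorem dens_of_ncard (G : SimpleGraph V) (a : ℝ)
    (h : ∀ X : Finset V,
      ({e : V × V | e.1 ∈ X ∧ e.2 ∈ X ∧ G.Adj e.1 e.2}.ncard : ℝ) ≤ a * X.card) : Dens G a := by
  intro X
  refine le_trans (le_of_eq ?_) (h X)
  rw [← Set.ncard_coe_finset]
  congr 2
  ext e
  simp only [Finset.coe_filter, mem_pr]
  constructor
  · rintro ⟨h1, h2, h3⟩
    exact ⟨h2, h3, h1⟩
  · rintro ⟨h1, h2, h3⟩
    exact ⟨h3, h1, h2⟩

theorem choosable_of_LC (G : SimpleGraph V) (D : ℕ)
    (h : ∀ L : V → V → Finset ℕ, (∀ a b, L a b = L b a) →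
      (∀ u v, G.Adj u v → D ≤ (L u v).card) → LC G L) : Choosable G D := by
  classical
  intro L hL
  let L' : V → V → Finset ℕ := fun a b => if h : G.Adj a b then L ⟨s(a, b), h⟩ else ∅
  have hL'1 : ∀ a b, L' a b = L' b a := by
    intro a b
    simp only [L']
    by_cases h : G.Adj a b
    · rw [dif_pos h, dif_pos h.symm]
      congr 1
      exact Subtype.ext Sym2.eq_swap
    · rw [dif_neg h, dif_neg (fun h' => h h'.symm)]
  have hL'2 : ∀ u v (h : G.Adj u v), L' u v = L ⟨s(u, v), h⟩ := by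
    intro u v h
    simp only [L']
    rw [dif_pos h]
  obtain ⟨f, hf1, hf2, hf3⟩ := h L' hL'1 (by
    intro u v huv
    rw [hL'2 u v huv]
    exact hL _)
  have hex : ∀ e : G.edgeSet, ∃ p : V × V, s(p.1, p.2) = e.1 := by
    rintro ⟨e, he⟩
    induction e using Sym2.ind with
    | _ a b => exact ⟨(a, b), rfl⟩
  choose P hP using hex
  have hadjP : ∀ e : G.edgeSet, G.Adj (P e).1 (P e).2 := by
    intro e
    have h1 := e.2
    rw [← hP e] at h1
    exact h1
  have key : ∀ (e : G.edgeSet) (u v : V), s(u, v) = e.1 → f (P e).1 (P e).2 = f u v := by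
    intro e u v huv
    have h1 := hP e
    rw [← huv] at h1
    rcases Sym2.eq_iff.1 h1 with ⟨h2, h3⟩ | ⟨h2, h3⟩
    · rw [h2, h3]
    · rw [hf1 _ _ (hadjP e), h2, h3]
  refine ⟨fun e => f (P e).1 (P e).2, ?_, ?_⟩
  · intro e
    have h1 := hf2 _ _ (hadjP e)
    rw [hL'2 _ _ (hadjP e)] at h1
    have h2 : (⟨s((P e).1, (P e).2), hadjP e⟩ : G.edgeSet) = e := Subtype.ext (hP e)
    rwa [h2] at h1
  · intro e e' he
    rw [SimpleGraph.lineGraph_adj_iff_exists] at he
    obtain ⟨hne, x, hx, hx'⟩ := he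
    obtain ⟨b, hb⟩ := Sym2.mem_iff_exists.1 hx
    obtain ⟨d, hd⟩ := Sym2.mem_iff_exists.1 hx'
    simp only
    rw [key e x b hb.symm, key e' x d hd.symm]
    have h1 : G.Adj x b := by
      have := e.2
      rw [hb] at this
      exact this
    have h2 : G.Adj x d := by
      have := e'.2
      rw [hd] at this
      exact this
    apply hf3 x b d h1 h2
    rintro rfl
    apply hne
    exact Subtype.ext (hb.trans hd.symm)

theorem choosable_sparse (G : SimpleGraph V) (D : ℕ) (hD : ∀ v, (G.neighborSet v).ncard ≤ D)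
    (a : ℝ) (hmad : ∀ X : Finset V,
      ({e : V × V | e.1 ∈ X ∧ e.2 ∈ X ∧ G.Adj e.1 e.2}.ncard : ℝ) ≤ a * X.card)
    (ha : 34 * a * (1 + Real.log D) ≤ D) : Choosable G D := by
  apply choosable_of_LC
  intro L hsym hL
  exact main_edge D a ha L hsym _ G rfl (fun v => by rw [dg_eq_ncard]; exact hD v)
    (dens_of_ncard G a hmad) hL

end Pool.Agent.H162R2.Sparse
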