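import Pool.Agent.H162R2.Sparse.Dyadic

/-!
# The bipartite list colouring lemma
-/

set_option autoImplicit false
set_option linter.unusedSectionVars false

namespace Pool.Agent.H162R2.Sparse

open Finset

variable {V : Type} [Fintype V] [DecidableEq V]

theorem small_count (E : Finset (V × V))
    (hθ : ∀ u, ∑ e ∈ E.filter (fun e => e.1 = u), (1 / (hh E e.2 : ℚ)) ≤ 1 / 16) (u : V) (j : ℕ) :
    (E.filter (fun f => f.1 = u ∧ JJ E f.2 ≤ j)).card ≤ 2 ^ j / 8 := by
  rw [Nat.le_div_iff_mul_le (by norm_num)]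
  have h1 : ∑ e ∈ E.filter (fun f => f.1 = u ∧ JJ E f.2 ≤ j), (1 / (2 ^ (j + 1) : ℚ)) ≤
      ∑ e ∈ E.filter (fun e => e.1 = u), (1 / (hh E e.2 : ℚ)) := by
    calc ∑ e ∈ E.filter (fun f => f.1 = u ∧ JJ E f.2 ≤ j), (1 / (2 ^ (j + 1) : ℚ)) ≤
        ∑ e ∈ E.filter (fun f => f.1 = u ∧ JJ E f.2 ≤ j), (1 / (hh E e.2 : ℚ)) := by
          apply Finset.sum_le_sum
          intro e he
          rw [Finset.mem_filter] at he
          have h2 : 0 < hh E e.2 := by
            unfold hh
            rw [Finset.card_pos]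
            exact ⟨e, Finset.mem_filter.2 ⟨he.1, rfl⟩⟩
          have h3 : hh E e.2 < 2 ^ (j + 1) := by
            have h4 := Nat.lt_pow_succ_log_self (b := 2) (by norm_num) (hh E e.2)
            refine lt_of_lt_of_le h4 (Nat.pow_le_pow_right (by norm_num) ?_)
            exact Nat.succ_le_succ he.2.2
          have h5 : (0 : ℚ) < hh E e.2 := by exact_mod_cast h2
          apply one_div_le_one_div_of_le h5
          exact_mod_cast h3.le
      _ ≤ _ := by
          apply Finset.sum_le_sum_of_subset_of_nonneg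
          · intro e he
            rw [Finset.mem_filter] at he ⊢
            exact ⟨he.1, he.2.1⟩
          · intro e _ _
            positivity
  have h2 := h1.trans (hθ u)
  rw [Finset.sum_const, nsmul_eq_mul, mul_one_div, div_le_div_iff₀ (by positivity) (by norm_num)]
    at h2
  have h3 : (((E.filter (fun f => f.1 = u ∧ JJ E f.2 ≤ j)).card * 8 : ℕ) : ℚ) ≤ (2 ^ j : ℕ) := by
    push_cast
    have h4 : (2 : ℚ) ^ (j + 1) = 2 * 2 ^ j := by ring
    rw [h4] at h2
    linarith
  exact_mod_cast h3

theorem bip_list (E : Finset (V × V))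
    (hθ : ∀ u, ∑ e ∈ E.filter (fun e => e.1 = u), (1 / (hh E e.2 : ℚ)) ≤ 1 / 16)
    (L : V × V → Finset ℕ) (hL : ∀ e ∈ E, hh E e.2 ≤ (L e).card) :
    ∃ col : V × V → ℕ, (∀ e ∈ E, col e ∈ L e) ∧
        ∀ e ∈ E, ∀ f ∈ E, e ≠ f → (e.1 = f.1 ∨ e.2 = f.2) → col e ≠ col f := by
  classical
  let I : ℕ := E.card + 1
  obtain ⟨C, hC1, hC2, hC3, hC4, hC5⟩ := seq_exists E hθ I
  have hJI : ∀ w, JJ E w < I := by
    intro w
    have h1 : JJ E w ≤ hh E w := Nat.log_le_self 2 _
    have h2 : hh E w ≤ E.card := Finset.card_filter_le _ _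
    simp only [I]
    omega
  let c : V × V → ℕ := fun e => if h : ∃ i, e ∈ C i then h.choose else JJ E e.2
  have hc1 : ∀ i e, e ∈ C i → c e = i := by
    intro i e he
    have h : ∃ i, e ∈ C i := ⟨i, he⟩
    simp only [c]
    rw [dif_pos h]
    by_contra hne
    have h2 := hC3 _ _ hne
    rw [Finset.disjoint_left] at h2
    exact h2 h.choose_spec he
  have hc2 : ∀ e, (∀ i, e ∉ C i) → c e = JJ E e.2 := by
    intro e he
    simp only [c]
    rw [dif_neg]
    push Not
    exact he
  have hCw : ∀ i e, e ∈ C i → i < I ∧ i < JJ E e.2 := by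
    intro i e he
    have hi : i < I := by
      by_contra h
      rw [hC2 i (by omega)] at he
      simp at he
    refine ⟨hi, ?_⟩
    by_contra h
    have h1 := hC4 i hi e.2
    rw [if_neg h, Finset.card_eq_zero] at h1
    have h2 : e ∈ (C i).filter (fun f => f.2 = e.2) := Finset.mem_filter.2 ⟨he, rfl⟩
    rw [h1] at h2
    simp at h2
  have hcJ : ∀ e ∈ E, c e ≤ JJ E e.2 := by
    intro e _
    by_cases h : ∃ i, e ∈ C i
    · obtain ⟨i, hi⟩ := h
      rw [hc1 i e hi]
      exact (hCw i e hi).2.le
    · push Not at h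
      rw [hc2 e h]
  refine of_classes E c ?_ ?_ L hL
  · intro e he
    have key : ∀ u j, (E.filter (fun f => f.1 = u ∧ c f ≤ j)).card ≤ 2 ^ j := by
      intro u j
      have hsub : E.filter (fun f => f.1 = u ∧ c f ≤ j) ⊆
          ((range (j + 1)).biUnion (fun i => (C i).filter (fun f => f.1 = u))) ∪
            E.filter (fun f => f.1 = u ∧ JJ E f.2 ≤ j) := by
        intro f hf
        rw [Finset.mem_filter] at hf
        rw [Finset.mem_union]
        by_cases h : ∃ i, f ∈ C i
        · left
          obtain ⟨i, hi⟩ := h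
          rw [Finset.mem_biUnion]
          refine ⟨i, Finset.mem_range.2 ?_, Finset.mem_filter.2 ⟨hi, hf.2.1⟩⟩
          have := hc1 i f hi
          omega
        · right
          push Not at h
          rw [Finset.mem_filter]
          refine ⟨hf.1, hf.2.1, ?_⟩
          rw [← hc2 f h]
          exact hf.2.2
      refine (Finset.card_le_card hsub).trans ((Finset.card_union_le _ _).trans ?_)
      refine le_trans ?_ (num1 j)
      apply Nat.add_le_add
      · refine Finset.card_biUnion_le.trans ?_
        apply Finset.sum_le_sum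
        intro i _
        exact hC5 i u
      · exact small_count E hθ u j
    exact key e.1 (c e)
  · intro e he
    have hsub : (range (c e)).biUnion (fun i => (C i).filter (fun f => f.2 = e.2)) ⊆
        E.filter (fun f => f.2 = e.2 ∧ c f < c e) := by
      intro f hf
      rw [Finset.mem_biUnion] at hf
      obtain ⟨i, hi, hf2⟩ := hf
      rw [Finset.mem_filter] at hf2
      rw [Finset.mem_filter]
      refine ⟨hC1 i hf2.1, hf2.2, ?_⟩
      rw [hc1 i f hf2.1]
      exact Finset.mem_range.1 hi
    refine le_trans (le_of_eq ?_) (Finset.card_le_card hsub)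
    rw [Finset.card_biUnion]
    · rw [← geom]
      apply Finset.sum_congr rfl
      intro i hi
      rw [Finset.mem_range] at hi
      have h1 := hcJ e he
      have h2 := hJI e.2
      rw [hC4 i (by omega) e.2, if_pos (by omega)]
    · intro i _ j _ hij
      exact Finset.disjoint_filter_filter (hC3 i j hij)

end Pool.Agent.H162R2.Sparse
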