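import Pool.Agent.H162R2.Sparse.Kernel

/-!
# From dyadic classes of edges to list colourings
-/

set_option autoImplicit false

namespace Pool.Agent.H162R2.Sparse

open Finset

variable {V : Type} [Fintype V] [DecidableEq V]

/-- number of edges of `E` with right end `w` -/
def hh (E : Finset (V × V)) (w : V) : ℕ := (E.filter (fun f => f.2 = w)).card

theorem of_classes (E : Finset (V × V)) (c : V × V → ℕ)
    (hU : ∀ e ∈ E, (E.filter (fun f => f.1 = e.1 ∧ c f ≤ c e)).card ≤ 2 ^ c e)
    (hW : ∀ e ∈ E, 2 ^ c e - 1 ≤ (E.filter (fun f => f.2 = e.2 ∧ c f < c e)).card)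
    (L : V × V → Finset ℕ) (hL : ∀ e ∈ E, hh E e.2 ≤ (L e).card) :
    ∃ col : V × V → ℕ, (∀ e ∈ E, col e ∈ L e) ∧
        ∀ e ∈ E, ∀ f ∈ E, e ≠ f → (e.1 = f.1 ∨ e.2 = f.2) → col e ≠ col f := by
  classical
  let M : ℕ := Fintype.card (V × V)
  let ι : V × V → ℕ := fun e => (Fintype.equivFin (V × V) e : ℕ)
  have hι : ∀ e, ι e < M := fun e => (Fintype.equivFin (V × V) e).isLt
  have hιi : Function.Injective ι := by
    intro e f h
    exact (Fintype.equivFin (V × V)).injective (Fin.ext h)
  let K : ℕ := univ.sup c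
  have hK : ∀ e, c e ≤ K := fun e => Finset.le_sup (f := c) (Finset.mem_univ e)
  let pu : V × V → ℕ := fun e => c e * M + ι e
  let qw : V × V → ℕ := fun e => (K - c e) * M + ι e
  have hpu : Function.Injective pu := by
    intro e f h
    apply hιi
    have h1 := congrArg (· % M) h
    simp only [pu] at h1
    rwa [Nat.mul_add_mod_of_lt (hι e), Nat.mul_add_mod_of_lt (hι f)] at h1
  have hqw : Function.Injective qw := by
    intro e f h
    apply hιi
    have h1 := congrArg (· % M) h
    simp only [qw] at h1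
    rwa [Nat.mul_add_mod_of_lt (hι e), Nat.mul_add_mod_of_lt (hι f)] at h1
  have hpu_lt : ∀ e f, pu f < pu e → c f ≤ c e := by
    intro e f h
    by_contra hcon
    push Not at hcon
    have h1 : (c e + 1) * M ≤ c f * M := Nat.mul_le_mul_right _ hcon
    have h2 := hι e
    simp only [pu] at h
    rw [Nat.add_mul, one_mul] at h1
    omega
  have hqw_lt : ∀ e f, qw f < qw e → c e ≤ c f := by
    intro e f h
    by_contra hcon
    push Not at hcon
    have h0 : K - c e + 1 ≤ K - c f := by
      have := hK e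
      omega
    have h1 : (K - c e + 1) * M ≤ (K - c f) * M := Nat.mul_le_mul_right _ h0
    have h2 := hι e
    simp only [qw] at h
    rw [Nat.add_mul, one_mul] at h1
    omega
  refine list_colour pu qw hpu hqw _ E L rfl ?_
  intro e he
  refine lt_of_lt_of_le ?_ (hL e he)
  have hsub : E.filter (fun f => Dom pu qw f e) ⊆
      ((E.filter (fun f => f.1 = e.1 ∧ c f ≤ c e)).erase e) ∪
        ((E.filter (fun f => f.2 = e.2 ∧ c e ≤ c f)).erase e) := by
    intro f hf
    rw [Finset.mem_filter] at hf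
    rw [Finset.mem_union, Finset.mem_erase, Finset.mem_erase, Finset.mem_filter,
      Finset.mem_filter]
    rcases hf.2 with ⟨h1, h2⟩ | ⟨h1, h2⟩
    · left
      refine ⟨?_, hf.1, h1, hpu_lt e f h2⟩
      rintro rfl
      exact lt_irrefl _ h2
    · right
      refine ⟨?_, hf.1, h1, hqw_lt e f h2⟩
      rintro rfl
      exact lt_irrefl _ h2
  have h1 := (Finset.card_le_card hsub).trans (Finset.card_union_le _ _)
  rw [Finset.card_erase_of_mem (Finset.mem_filter.2 ⟨he, rfl, le_refl _⟩),
    Finset.card_erase_of_mem (Finset.mem_filter.2 ⟨he, rfl, le_refl _⟩)] at h1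
  have h2 := hU e he
  have h3 := hW e he
  have h4 : (E.filter (fun f => f.2 = e.2 ∧ c f < c e)).card +
      (E.filter (fun f => f.2 = e.2 ∧ c e ≤ c f)).card = hh E e.2 := by
    unfold hh
    rw [← Finset.card_union_of_disjoint]
    · congr 1
      ext f
      simp only [Finset.mem_union, Finset.mem_filter]
      constructor
      · rintro (h | h)
        · exact ⟨h.1, h.2.1⟩
        · exact ⟨h.1, h.2.1⟩
      · rintro ⟨h, h'⟩
        rcases lt_or_ge (c f) (c e) with h5 | h5
        · exact Or.inl ⟨h, h', h5⟩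
        · exact Or.inr ⟨h, h', h5⟩
    · rw [Finset.disjoint_left]
      intro f hf hf'
      rw [Finset.mem_filter] at hf hf'
      omega
  have h5 : 1 ≤ (E.filter (fun f => f.1 = e.1 ∧ c f ≤ c e)).card := by
    rw [Nat.one_le_iff_ne_zero, Ne, Finset.card_eq_zero]
    intro h
    have h8 : e ∈ E.filter (fun f => f.1 = e.1 ∧ c f ≤ c e) :=
      Finset.mem_filter.2 ⟨he, rfl, le_refl (c e)⟩
    rw [h] at h8
    simp at h8
  have h6 : 1 ≤ (E.filter (fun f => f.2 = e.2 ∧ c e ≤ c f)).card := by
    rw [Nat.one_le_iff_ne_zero, Ne, Finset.card_eq_zero]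
    intro h
    have h8 : e ∈ E.filter (fun f => f.2 = e.2 ∧ c e ≤ c f) :=
      Finset.mem_filter.2 ⟨he, rfl, le_refl (c e)⟩
    rw [h] at h8
    simp at h8
  have h7 : 1 ≤ 2 ^ c e := Nat.one_le_two_pow
  omega

end Pool.Agent.H162R2.Sparse
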