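import Pool.Agent.H162R2.Sparse.Select

/-!
# Dyadic classes
-/

set_option autoImplicit false

namespace Pool.Agent.H162R2.Sparse

open Finset

variable {V : Type} [Fintype V] [DecidableEq V]

theorem num1 (j : ℕ) : ∑ i ∈ range (j + 1), (2 ^ i + 3) / 4 + 2 ^ j / 8 ≤ 2 ^ j := by
  have key : ∀ m : ℕ, ∑ i ∈ range (m + 3), (2 ^ i + 3) / 4 = 2 ^ (m + 1) + 1 := by
    intro m
    induction m with
    | zero => decide
    | succ m ih =>
      rw [Finset.sum_range_succ, ih]
      have h1 : (2 ^ (m + 3) + 3) / 4 = 2 ^ (m + 1) := by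
        have : 2 ^ (m + 3) = 4 * 2 ^ (m + 1) := by ring
        omega
      rw [h1]
      ring
  rcases j with _ | _ | j
  · decide
  · decide
  · rw [key]
    rcases j with _ | j
    · decide
    · have h1 : 2 ^ (j + 1 + 1 + 1) = 8 * 2 ^ j := by ring
      have h2 : 2 ^ (j + 1 + 1) = 4 * 2 ^ j := by ring
      have h3 : 1 ≤ 2 ^ j := Nat.one_le_two_pow
      rw [h1, h2]
      omega

theorem num2 (i h : ℕ) (hi : 2 ^ (i + 1) ≤ h) :
    0 < (h - (2 ^ i - 1)) / 2 ^ i ∧ h ≤ 2 ^ (i + 2) * ((h - (2 ^ i - 1)) / 2 ^ i) := by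
  have hT : 0 < 2 ^ i := by positivity
  generalize hTT : 2 ^ i = T at *
  have h1 : 2 ^ (i + 1) = 2 * T := by rw [← hTT]; ring
  have h2 : 2 ^ (i + 2) = 4 * T := by rw [← hTT]; ring
  rw [h1] at hi
  rw [h2]
  have hy2 : 2 ≤ h / T := (Nat.le_div_iff_mul_le hT).2 hi
  have hy3 : h / T * T ≤ h := Nat.div_mul_le_self h T
  have hy4 : h < T * (h / T + 1) := Nat.lt_mul_div_succ h hT
  generalize h / T = y at *
  have h3 : y - 1 ≤ (h - (T - 1)) / T := by
    rw [Nat.le_div_iff_mul_le hT]
    obtain ⟨z, rfl⟩ : ∃ z, y = z + 1 := ⟨y - 1, by omega⟩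
    rw [Nat.add_sub_cancel]
    rw [Nat.add_mul, one_mul] at hy3
    omega
  refine ⟨by omega, ?_⟩
  obtain ⟨z, rfl⟩ : ∃ z, y = z + 2 := ⟨y - 2, by omega⟩
  have h4 : z + 1 ≤ (h - (T - 1)) / T := by omega
  calc h ≤ T * (z + 2 + 1) := hy4.le
    _ ≤ 4 * T * (z + 1) := by nlinarith
    _ ≤ _ := Nat.mul_le_mul_left _ h4

/-- dyadic size of the right degree -/
def JJ (E : Finset (V × V)) (w : V) : ℕ := Nat.log 2 (hh E w)

theorem two_pow_JJ (E : Finset (V × V)) (w : V) (i : ℕ) (hi : i < JJ E w) :
    2 ^ (i + 1) ≤ hh E w := by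
  have h1 : hh E w ≠ 0 := by
    intro h
    unfold JJ at hi
    rw [h] at hi
    simp at hi
  exact (Nat.pow_le_pow_right (by norm_num) hi).trans (Nat.pow_log_le_self 2 h1)

theorem geom (i : ℕ) : ∑ j ∈ range i, 2 ^ j = 2 ^ i - 1 := by
  have := Nat.geomSum_eq (le_refl 2) i
  simpa using this

theorem seq_exists (E : Finset (V × V))
    (hθ : ∀ u, ∑ e ∈ E.filter (fun e => e.1 = u), (1 / (hh E e.2 : ℚ)) ≤ 1 / 16) (i : ℕ) :
    ∃ C : ℕ → Finset (V × V), (∀ j, C j ⊆ E) ∧ (∀ j, i ≤ j → C j = ∅) ∧
      (∀ j j', j ≠ j' → Disjoint (C j) (C j')) ∧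
      (∀ j, j < i → ∀ w, ((C j).filter (fun e => e.2 = w)).card =
        if j < JJ E w then 2 ^ j else 0) ∧
      (∀ j u, ((C j).filter (fun e => e.1 = u)).card ≤ (2 ^ j + 3) / 4) := by
  classical
  induction i with
  | zero =>
    refine ⟨fun _ => ∅, by simp, by simp, by simp, by simp, by simp⟩
  | succ i ih =>
    obtain ⟨C, hC1, hC2, hC3, hC4, hC5⟩ := ih
    let U : Finset (V × V) := (range i).biUnion C
    let D : Finset (V × V) := E \ U
    let W : Finset V := univ.filter (fun w => i < JJ E w)
    have hUE : U ⊆ E := Finset.biUnion_subset.2 (fun j _ => hC1 j)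
    have hUw : ∀ w ∈ W, (U.filter (fun e => e.2 = w)).card = 2 ^ i - 1 := by
      intro w hw
      simp only [W, Finset.mem_filter, Finset.mem_univ, true_and] at hw
      have h1 : U.filter (fun e => e.2 = w) =
          (range i).biUnion (fun j => (C j).filter (fun e => e.2 = w)) := by
        ext e
        simp only [U, Finset.mem_filter, Finset.mem_biUnion]
        constructor
        · rintro ⟨⟨j, hj, hej⟩, h⟩
          exact ⟨j, hj, hej, h⟩
        · rintro ⟨j, hj, hej, h⟩
          exact ⟨⟨j, hj, hej⟩, h⟩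
      rw [h1, Finset.card_biUnion]
      · rw [← geom]
        apply Finset.sum_congr rfl
        intro j hj
        rw [Finset.mem_range] at hj
        rw [hC4 j hj w, if_pos (hj.trans hw)]
      · intro j _ j' _ hjj
        exact Finset.disjoint_filter_filter (hC3 j j' hjj)
    have hDw : ∀ w ∈ W, (D.filter (fun e => e.2 = w)).card = hh E w - (2 ^ i - 1) := by
      intro w hw
      have h1 : D.filter (fun e => e.2 = w) =
          E.filter (fun e => e.2 = w) \ U.filter (fun e => e.2 = w) := by
        ext e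
        simp only [D, Finset.mem_filter, Finset.mem_sdiff]
        tauto
      rw [h1, Finset.card_sdiff_of_subset (Finset.filter_subset_filter _ hUE), hUw w hw]
      rfl
    have hq : ∀ u, ∑ e ∈ D.filter (fun e => e.1 = u ∧ e.2 ∈ W),
        (1 / (((hh E e.2 - (2 ^ i - 1)) / 2 ^ i : ℕ) : ℚ)) ≤ ((2 ^ i + 3) / 4 : ℕ) := by
      intro u
      have h1 : ∑ e ∈ D.filter (fun e => e.1 = u ∧ e.2 ∈ W),
          (1 / (((hh E e.2 - (2 ^ i - 1)) / 2 ^ i : ℕ) : ℚ)) ≤
          ∑ e ∈ D.filter (fun e => e.1 = u ∧ e.2 ∈ W), 2 ^ (i + 2) * (1 / (hh E e.2 : ℚ)) := by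
        apply Finset.sum_le_sum
        intro e he
        rw [Finset.mem_filter] at he
        have hw := he.2.2
        simp only [W, Finset.mem_filter, Finset.mem_univ, true_and] at hw
        have h2 := two_pow_JJ E e.2 i hw
        obtain ⟨h3, h4⟩ := num2 i _ h2
        have h5 : 0 < hh E e.2 := lt_of_lt_of_le (by positivity) h2
        generalize (hh E e.2 - (2 ^ i - 1)) / 2 ^ i = g at *
        have h6 : (0 : ℚ) < g := by exact_mod_cast h3
        have h7 : (0 : ℚ) < hh E e.2 := by exact_mod_cast h5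
        rw [mul_one_div, div_le_div_iff₀ h6 h7, one_mul]
        exact_mod_cast h4
      refine h1.trans ?_
      rw [← Finset.mul_sum]
      have h2 : ∑ e ∈ D.filter (fun e => e.1 = u ∧ e.2 ∈ W), (1 / (hh E e.2 : ℚ)) ≤
          ∑ e ∈ E.filter (fun e => e.1 = u), (1 / (hh E e.2 : ℚ)) := by
        apply Finset.sum_le_sum_of_subset_of_nonneg
        · intro e he
          rw [Finset.mem_filter] at he ⊢
          exact ⟨(Finset.mem_sdiff.1 he.1).1, he.2.1⟩
        · intro e _ _
          positivity
      have h3 := h2.trans (hθ u)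
      have h4 : (2 : ℚ) ^ (i + 2) * ∑ e ∈ D.filter (fun e => e.1 = u ∧ e.2 ∈ W),
          (1 / (hh E e.2 : ℚ)) ≤ 2 ^ (i + 2) * (1 / 16) :=
        mul_le_mul_of_nonneg_left h3 (by positivity)
      refine h4.trans ?_
      have h5 : (2 ^ i : ℕ) ≤ 4 * ((2 ^ i + 3) / 4) := by omega
      have h6 : ((2 : ℚ) ^ i) ≤ 4 * (((2 ^ i + 3) / 4 : ℕ) : ℚ) := by exact_mod_cast h5
      have h7 : (2 : ℚ) ^ (i + 2) = 4 * 2 ^ i := by ring
      rw [h7]
      linarith
    obtain ⟨N, hN1, hN2, hN3, hN4⟩ := select D W (2 ^ i) ((2 ^ i + 3) / 4)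
      (fun w => (hh E w - (2 ^ i - 1)) / 2 ^ i)
      (by
        intro w hw
        simp only [W, Finset.mem_filter, Finset.mem_univ, true_and] at hw
        exact (num2 i _ (two_pow_JJ E w i hw)).1)
      (by
        intro w hw
        rw [hDw w hw]
        exact Nat.mul_div_le _ _)
      hq
    refine ⟨Function.update C i N, ?_, ?_, ?_, ?_, ?_⟩
    · intro j
      by_cases h : j = i
      · subst h
        rw [Function.update_self]
        exact hN1.trans Finset.sdiff_subset
      · rw [Function.update_of_ne h]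
        exact hC1 j
    · intro j hj
      have h : j ≠ i := by omega
      rw [Function.update_of_ne h]
      exact hC2 j (by omega)
    · have key : ∀ j, j ≠ i → Disjoint (C j) N := by
        intro j hj
        by_cases hji : j < i
        · rw [Finset.disjoint_left]
          intro e he he'
          have h1 := hN1 he'
          simp only [D, Finset.mem_sdiff, U, Finset.mem_biUnion, not_exists, not_and] at h1
          exact h1.2 j (Finset.mem_range.2 hji) he
        · rw [hC2 j (by omega)]
          exact Finset.disjoint_empty_left _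
      intro j j' hjj
      by_cases h : j = i
      · subst h
        rw [Function.update_self, Function.update_of_ne hjj.symm]
        exact (key j' hjj.symm).symm
      · by_cases h' : j' = i
        · subst h'
          rw [Function.update_self, Function.update_of_ne h]
          exact key j h
        · rw [Function.update_of_ne h, Function.update_of_ne h']
          exact hC3 j j' hjj
    · intro j hj w
      by_cases h : j = i
      · subst h
        rw [Function.update_self]
        by_cases hw : j < JJ E w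
        · rw [if_pos hw]
          exact hN2 w (Finset.mem_filter.2 ⟨Finset.mem_univ _, hw⟩)
        · rw [if_neg hw, hN3 w (fun h => hw (Finset.mem_filter.1 h).2)]
          rfl
      · rw [Function.update_of_ne h]
        exact hC4 j (by omega) w
    · intro j u
      by_cases h : j = i
      · subst h
        rw [Function.update_self]
        exact hN4 u
      · rw [Function.update_of_ne h]
        exact hC5 j u

end Pool.Agent.H162R2.Sparse
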