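import Mathlib

/-!
# Kernels of bipartite preference systems and list colourings
-/

set_option autoImplicit false

namespace Pool.Agent.H162R2.Sparse

open Finset

variable {V : Type} [DecidableEq V]

/-- `f` dominates `e`: they share an end where `f` is better (smaller key). -/
def Dom (pu qw : V × V → ℕ) (f e : V × V) : Prop :=
  (f.1 = e.1 ∧ pu f < pu e) ∨ (f.2 = e.2 ∧ qw f < qw e)

instance (pu qw : V × V → ℕ) (f e : V × V) : Decidable (Dom pu qw f e) := by
  unfold Dom; infer_instance

/-- Existence of kernels (stable matchings). -/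
theorem kernel (pu qw : V × V → ℕ) (hp : Function.Injective pu) (hq : Function.Injective qw) :
    ∀ (n : ℕ) (E : Finset (V × V)), E.card = n →
      ∃ M ⊆ E, (∀ e ∈ M, ∀ f ∈ M, (e.1 = f.1 ∨ e.2 = f.2) → e = f) ∧
        ∀ e ∈ E, e ∉ M → ∃ f ∈ M, Dom pu qw f e := by
  intro n
  induction n with
  | zero =>
    intro E hE
    rw [Finset.card_eq_zero] at hE
    subst hE
    exact ⟨∅, Finset.Subset.refl _, by simp, by simp⟩
  | succ n ih =>
    intro E hE
    -- favourites of the vertices on the right
    let fav : V × V → Prop := fun e => ∀ f ∈ E, f.2 = e.2 → qw e ≤ qw f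
    have hfav : ∀ e ∈ E, ∃ f ∈ E, f.2 = e.2 ∧ fav f := by
      intro e he
      obtain ⟨f, hf, hmin⟩ := Finset.exists_min_image (E.filter (fun f => f.2 = e.2)) qw
        ⟨e, Finset.mem_filter.2 ⟨he, rfl⟩⟩
      rw [Finset.mem_filter] at hf
      refine ⟨f, hf.1, hf.2, ?_⟩
      intro g hg hgf
      exact hmin g (Finset.mem_filter.2 ⟨hg, hgf.trans hf.2⟩)
    by_cases hcase : ∀ e ∈ E, ∀ f ∈ E, fav e → fav f → e.1 = f.1 → e = f
    · classical
      refine ⟨E.filter fav, Finset.filter_subset _ _, ?_, ?_⟩
      · intro e he f hf hef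
        rw [Finset.mem_filter] at he hf
        rcases hef with h | h
        · exact hcase e he.1 f hf.1 he.2 hf.2 h
        · exact hq (le_antisymm (he.2 f hf.1 h.symm) (hf.2 e he.1 h))
      · intro e he heM
        obtain ⟨f, hf, hfe, hff⟩ := hfav e he
        refine ⟨f, Finset.mem_filter.2 ⟨hf, hff⟩, Or.inr ⟨hfe, ?_⟩⟩
        refine lt_of_le_of_ne (hff e he hfe.symm) ?_
        intro h
        rw [hq h] at hff
        exact heM (Finset.mem_filter.2 ⟨he, hff⟩)
    · push Not at hcase
      -- two favourites at the same left vertex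
      have key : ∃ e ∈ E, ∃ f ∈ E, fav e ∧ e.1 = f.1 ∧ pu e < pu f := by
        obtain ⟨e, he, f, hf, hfe, hff, h1, hne⟩ := hcase
        rcases lt_trichotomy (pu e) (pu f) with h | h | h
        · exact ⟨e, he, f, hf, hfe, h1, h⟩
        · exact absurd (hp h) hne
        · exact ⟨f, hf, e, he, hff, h1.symm, h⟩
      obtain ⟨e, he, f, hf, hfe, h1, hlt⟩ := key
      have hne : e ≠ f := fun h => by rw [h] at hlt; exact lt_irrefl _ hlt
      obtain ⟨M, hM, hmat, hdom⟩ := ih (E.erase f) (by
        rw [Finset.card_erase_of_mem hf, hE, Nat.add_sub_cancel])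
      refine ⟨M, hM.trans (Finset.erase_subset _ _), hmat, ?_⟩
      intro g hg hgM
      by_cases hgf : g = f
      · subst hgf
        by_cases heM : e ∈ M
        · exact ⟨e, heM, Or.inl ⟨h1, hlt⟩⟩
        · obtain ⟨d, hd, hde⟩ := hdom e (Finset.mem_erase.2 ⟨hne, he⟩) heM
          rcases hde with ⟨h2, h3⟩ | ⟨h2, h3⟩
          · exact ⟨d, hd, Or.inl ⟨h2.trans h1, h3.trans hlt⟩⟩
          · have := hfe d (Finset.mem_of_mem_erase (hM hd)) h2
            omega
      · exact hdom g (Finset.mem_erase.2 ⟨hgf, hg⟩) hgM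

/-- List colouring of the edges of a bipartite graph with preferences. -/
theorem list_colour (pu qw : V × V → ℕ) (hp : Function.Injective pu)
    (hq : Function.Injective qw) :
    ∀ (n : ℕ) (E : Finset (V × V)) (L : V × V → Finset ℕ), E.card = n →
      (∀ e ∈ E, (E.filter (fun f => Dom pu qw f e)).card < (L e).card) →
      ∃ col : V × V → ℕ, (∀ e ∈ E, col e ∈ L e) ∧
        ∀ e ∈ E, ∀ f ∈ E, e ≠ f → (e.1 = f.1 ∨ e.2 = f.2) → col e ≠ col f := by
  intro n
  induction n using Nat.strong_induction_on with
  | _ n ih =>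
    intro E L hE hL
    rcases E.eq_empty_or_nonempty with h0 | ⟨e0, he0⟩
    · subst h0
      exact ⟨fun _ => 0, by simp, by simp⟩
    · have hne : (L e0).Nonempty := by
        rw [← Finset.card_pos]
        exact lt_of_le_of_lt (Nat.zero_le _) (hL e0 he0)
      obtain ⟨x, hx⟩ := hne
      obtain ⟨M, hM, hmat, hdom⟩ := kernel pu qw hp hq _ (E.filter (fun e => x ∈ L e)) rfl
      have hME : M ⊆ E := hM.trans (Finset.filter_subset _ _)
      have hMne : M.Nonempty := by
        by_cases h : e0 ∈ M
        · exact ⟨e0, h⟩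
        · obtain ⟨f, hf, _⟩ := hdom e0 (Finset.mem_filter.2 ⟨he0, hx⟩) h
          exact ⟨f, hf⟩
      have hcard : (E \ M).card < n := by
        rw [Finset.card_sdiff_of_subset hME, hE]
        have h1 := Finset.card_pos.2 hMne
        have h2 := Finset.card_le_card hME
        omega
      obtain ⟨col, hc1, hc2⟩ := ih _ hcard (E \ M) (fun e => (L e).erase x) rfl (by
        intro e he
        rw [Finset.mem_sdiff] at he
        have h1 := hL e he.1
        have hsub : (E \ M).filter (fun f => Dom pu qw f e) ⊆ E.filter (fun f => Dom pu qw f e) :=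
          Finset.filter_subset_filter _ Finset.sdiff_subset
        by_cases hxe : x ∈ L e
        · obtain ⟨f, hf, hfd⟩ := hdom e (Finset.mem_filter.2 ⟨he.1, hxe⟩) he.2
          have h2 : ((E \ M).filter (fun f => Dom pu qw f e)).card <
              (E.filter (fun f => Dom pu qw f e)).card := by
            apply Finset.card_lt_card
            rw [Finset.ssubset_iff_of_subset hsub]
            refine ⟨f, Finset.mem_filter.2 ⟨hME hf, hfd⟩, ?_⟩
            intro h
            exact (Finset.mem_sdiff.1 (Finset.mem_filter.1 h).1).2 hf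
          rw [Finset.card_erase_of_mem hxe]
          omega
        · rw [Finset.erase_eq_of_notMem hxe]
          exact lt_of_le_of_lt (Finset.card_le_card hsub) h1)
      refine ⟨fun e => if e ∈ M then x else col e, ?_, ?_⟩
      · intro e he
        by_cases h : e ∈ M
        · simp only [if_pos h]
          exact (Finset.mem_filter.1 (hM h)).2
        · simp only [if_neg h]
          exact Finset.mem_of_mem_erase (hc1 e (Finset.mem_sdiff.2 ⟨he, h⟩))
      · intro e he f hf hef hadj
        by_cases h : e ∈ M <;> by_cases h' : f ∈ M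
        · exact absurd (hmat e h f h' hadj) hef
        · simp only [if_pos h, if_neg h']
          exact (Finset.ne_of_mem_erase (hc1 f (Finset.mem_sdiff.2 ⟨hf, h'⟩))).symm
        · simp only [if_neg h, if_pos h']
          exact Finset.ne_of_mem_erase (hc1 e (Finset.mem_sdiff.2 ⟨he, h⟩))
        · simp only [if_neg h, if_neg h']
          exact hc2 e (Finset.mem_sdiff.2 ⟨he, h⟩) f (Finset.mem_sdiff.2 ⟨hf, h'⟩) hef hadj

end Pool.Agent.H162R2.Sparse
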