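import Pool.Agent.H162R2.Sparse.Bip

/-!
# Peeling with a harmonic potential
-/

set_option autoImplicit false
set_option linter.unusedSectionVars false

namespace Pool.Agent.H162R2.Sparse

open Finset

variable {V : Type} [Fintype V] [DecidableEq V]

theorem hh_split (E : Finset (V × V)) (u w : V) :
    hh E w = hh (E.filter (fun e => e.1 ≠ u)) w + if (u, w) ∈ E then 1 else 0 := by
  unfold hh
  have h1 : E.filter (fun f => f.2 = w) =
      (E.filter (fun e => e.1 ≠ u)).filter (fun f => f.2 = w) ∪
        (E.filter (fun f => f = (u, w))) := by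
    ext f
    simp only [Finset.mem_filter, Finset.mem_union]
    constructor
    · rintro ⟨h1, h2⟩
      by_cases h3 : f.1 = u
      · right
        exact ⟨h1, Prod.ext h3 h2⟩
      · left
        exact ⟨⟨h1, h3⟩, h2⟩
    · rintro (⟨⟨h1, _⟩, h2⟩ | ⟨h1, h2⟩)
      · exact ⟨h1, h2⟩
      · refine ⟨h1, ?_⟩
        rw [h2]
  rw [h1, Finset.card_union_of_disjoint]
  · congr 1
    split_ifs with h
    · rw [Finset.card_eq_one]
      refine ⟨(u, w), ?_⟩
      ext f
      simp only [Finset.mem_filter, Finset.mem_singleton]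
      constructor
      · rintro ⟨_, h⟩
        exact h
      · intro h2
        rw [h2]
        exact ⟨h, rfl⟩
    · rw [Finset.card_eq_zero]
      ext f
      simp only [Finset.mem_filter, Finset.notMem_empty, iff_false]
      rintro ⟨h1, h2⟩
      rw [h2] at h1
      exact h h1
  · rw [Finset.disjoint_left]
    intro f hf hf2
    rw [Finset.mem_filter, Finset.mem_filter] at hf
    rw [Finset.mem_filter] at hf2
    apply hf.1.2
    rw [hf2.2]

/-- the harmonic weight of an edge set -/
noncomputable def HW (E : Finset (V × V)) : ℚ := ∑ w, harmonic (hh E w)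

theorem HW_split (E : Finset (V × V)) (u : V) :
    HW E = HW (E.filter (fun e => e.1 ≠ u)) +
      ∑ e ∈ E.filter (fun e => e.1 = u), (1 / (hh E e.2 : ℚ)) := by
  have h1 : ∑ e ∈ E.filter (fun e => e.1 = u), (1 / (hh E e.2 : ℚ)) =
      ∑ w, if (u, w) ∈ E then (1 / (hh E w : ℚ)) else 0 := by
    rw [← Finset.sum_filter]
    symm
    apply Finset.sum_bij (fun w _ => (u, w))
    · intro w hw
      rw [Finset.mem_filter] at hw ⊢
      exact ⟨hw.2, rfl⟩
    · intro w _ w' _ h
      exact (Prod.ext_iff.1 h).2
    · intro e he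
      rw [Finset.mem_filter] at he
      refine ⟨e.2, ?_, ?_⟩
      · rw [Finset.mem_filter]
        refine ⟨Finset.mem_univ _, ?_⟩
        rw [← he.2]
        exact he.1
      · rw [← he.2]
    · intro w _
      rfl
  rw [h1]
  unfold HW
  rw [← Finset.sum_add_distrib]
  apply Finset.sum_congr rfl
  intro w _
  have h2 := hh_split E u w
  split_ifs at h2 ⊢ with h
  · rw [h2, harmonic_succ]
    rw [one_div]
  · rw [h2]
    simp

theorem peel (E : Finset (V × V)) (S : Finset V) (hE : ∀ e ∈ E, e.1 ∈ S)
    (hΦ : 16 * HW E < (S.card : ℚ)) :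
    ∃ X ⊆ S, X.Nonempty ∧ ∀ u, ∑ e ∈ (E.filter (fun e => e.1 ∈ X)).filter (fun e => e.1 = u),
        (1 / (hh (E.filter (fun e => e.1 ∈ X)) e.2 : ℚ)) ≤ 1 / 16 := by
  classical
  let Φ : Finset V → ℚ := fun X => 16 * HW (E.filter (fun e => e.1 ∈ X)) - (X.card : ℚ)
  obtain ⟨X, hX1, hX2⟩ := Finset.exists_min_image S.powerset Φ ⟨S, Finset.mem_powerset_self S⟩
  rw [Finset.mem_powerset] at hX1
  refine ⟨X, hX1, ?_, ?_⟩
  · rw [Finset.nonempty_iff_ne_empty]
    intro h0
    have h1 := hX2 S (Finset.mem_powerset_self S)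
    have h2 : E.filter (fun e => e.1 ∈ S) = E := by
      rw [Finset.filter_eq_self]
      exact hE
    have h3 : Φ ∅ = 0 := by
      simp only [Φ]
      simp [HW, hh]
    have h4 : Φ S < 0 := by
      simp only [Φ]
      rw [h2]
      linarith
    rw [h0, h3] at h1
    linarith
  · intro u
    by_cases hu : u ∈ X
    · have h1 := hX2 (X.erase u) (Finset.mem_powerset.2 ((Finset.erase_subset _ _).trans hX1))
      have h2 : (E.filter (fun e => e.1 ∈ X)).filter (fun e => e.1 ≠ u) =
          E.filter (fun e => e.1 ∈ X.erase u) := by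
        ext e
        simp only [Finset.mem_filter, Finset.mem_erase]
        tauto
      have h3 := HW_split (E.filter (fun e => e.1 ∈ X)) u
      rw [h2] at h3
      have h4 : ((X.erase u).card : ℚ) = X.card - 1 := by
        rw [Finset.card_erase_of_mem hu, Nat.cast_sub]
        · simp
        · rw [Nat.one_le_iff_ne_zero, Finset.card_ne_zero]
          exact ⟨u, hu⟩
      simp only [Φ] at h1
      rw [h4] at h1
      linarith
    · have h1 : (E.filter (fun e => e.1 ∈ X)).filter (fun e => e.1 = u) = ∅ := by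
        ext e
        simp only [Finset.mem_filter, Finset.notMem_empty, iff_false]
        rintro ⟨⟨_, h2⟩, h3⟩
        rw [h3] at h2
        exact hu h2
      rw [h1]
      norm_num

theorem HW_le (E : Finset (V × V)) (D : ℕ) (hD : ∀ w, hh E w ≤ D) (N : Finset V)
    (hN : ∀ e ∈ E, e.2 ∈ N) :
    (HW E : ℝ) ≤ N.card * (1 + Real.log D) := by
  classical
  unfold HW
  have h1 : ∑ w, harmonic (hh E w) = ∑ w ∈ N, harmonic (hh E w) := by
    symm
    apply Finset.sum_subset (Finset.subset_univ _)
    intro w _ hw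
    have h2 : hh E w = 0 := by
      unfold hh
      rw [Finset.card_eq_zero]
      ext f
      simp only [Finset.mem_filter, Finset.notMem_empty, iff_false]
      rintro ⟨h3, h4⟩
      apply hw
      rw [← h4]
      exact hN f h3
    rw [h2]
    simp
  rw [h1]
  push_cast
  rw [← nsmul_eq_mul]
  apply Finset.sum_le_card_nsmul
  intro w _
  have h2 := harmonic_le_one_add_log (hh E w)
  refine h2.trans ?_
  by_cases h3 : hh E w = 0
  · rw [h3]
    simp only [Nat.cast_zero, Real.log_zero, add_zero]
    have : 0 ≤ Real.log (D : ℝ) := Real.log_natCast_nonneg D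
    linarith
  · have h4 : Real.log (hh E w : ℝ) ≤ Real.log (D : ℝ) := by
      apply Real.log_le_log
      · exact_mod_cast Nat.pos_of_ne_zero h3
      · exact_mod_cast hD w
    linarith

end Pool.Agent.H162R2.Sparse
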