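import Pool.Agent.H162R2.Sparse.Classes

/-!
# Selecting edges with Hall's theorem
-/

set_option autoImplicit false

namespace Pool.Agent.H162R2.Sparse

open Finset

variable {V : Type} [Fintype V] [DecidableEq V]

/-- Selection lemma: every `w ∈ W` selects `m` edges of `D`, every `u` is selected at most `q`
times. -/
theorem select (D : Finset (V × V)) (W : Finset V) (m q : ℕ) (g : V → ℕ)
    (hg : ∀ w ∈ W, 0 < g w)
    (hg2 : ∀ w ∈ W, m * g w ≤ (D.filter (fun e => e.2 = w)).card)
    (hq : ∀ u, ∑ e ∈ D.filter (fun e => e.1 = u ∧ e.2 ∈ W), (1 / (g e.2 : ℚ)) ≤ q) :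
    ∃ C ⊆ D, (∀ w ∈ W, (C.filter (fun e => e.2 = w)).card = m) ∧
      (∀ w, w ∉ W → C.filter (fun e => e.2 = w) = ∅) ∧
      ∀ u, (C.filter (fun e => e.1 = u)).card ≤ q := by
  classical
  have hemb : ∀ w : {w // w ∈ W}, Nonempty (Fin m × Fin (g w.1) ↪
      {e // e ∈ D.filter (fun e => e.2 = w.1)}) := by
    intro w
    apply Function.Embedding.nonempty_of_card_le
    rw [Fintype.card_prod, Fintype.card_fin, Fintype.card_fin, Fintype.card_coe]
    exact hg2 w.1 w.2
  let ew : ∀ w : {w // w ∈ W}, Fin m × Fin (g w.1) ↪ {e // e ∈ D.filter (fun e => e.2 = w.1)} :=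
    fun w => (hemb w).some
  let grp : {w // w ∈ W} × Fin m → Finset (V × V) := fun x =>
    univ.image (fun a : Fin (g x.1.1) => (ew x.1 (x.2, a)).1)
  have hgrp_mem : ∀ x, ∀ e ∈ grp x, e ∈ D ∧ e.2 = x.1.1 := by
    intro x e he
    simp only [grp, Finset.mem_image, Finset.mem_univ, true_and] at he
    obtain ⟨a, rfl⟩ := he
    have := (ew x.1 (x.2, a)).2
    rw [Finset.mem_filter] at this
    exact this
  have hgrp_card : ∀ x, (grp x).card = g x.1.1 := by
    intro x
    simp only [grp]
    rw [Finset.card_image_of_injective, Finset.card_univ, Fintype.card_fin]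
    intro a b hab
    have h1 := (ew x.1).injective (Subtype.ext hab)
    exact (Prod.ext_iff.1 h1).2
  have hgrp_disj : ∀ x y, x ≠ y → Disjoint (grp x) (grp y) := by
    intro x y hxy
    rw [Finset.disjoint_left]
    intro e he he'
    have h1 := (hgrp_mem x e he).2
    have h2 := (hgrp_mem y e he').2
    obtain ⟨xw, xg⟩ := x
    obtain ⟨yw, yg⟩ := y
    have h3 : xw = yw := Subtype.ext (h1.symm.trans h2)
    subst h3
    simp only [grp, Finset.mem_image, Finset.mem_univ, true_and] at he he'
    obtain ⟨a, ha⟩ := he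
    obtain ⟨b, hb⟩ := he'
    have h4 := (ew xw).injective (Subtype.ext (ha.trans hb.symm))
    have h5 : xg = yg := (Prod.ext_iff.1 h4).1
    exact hxy (by rw [h5])
  let t : {w // w ∈ W} × Fin m → Finset (V × Fin q) := fun x =>
    ((grp x).image Prod.fst) ×ˢ univ
  have hhall : ∀ s : Finset ({w // w ∈ W} × Fin m), s.card ≤ (s.biUnion t).card := by
    intro s
    have h1 : s.biUnion t = ((s.biUnion grp).image Prod.fst) ×ˢ (univ : Finset (Fin q)) := by
      ext ⟨u, a⟩
      simp only [t, Finset.mem_biUnion, Finset.mem_product, Finset.mem_image, Finset.mem_univ,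
        and_true]
      constructor
      · rintro ⟨x, hx, e, he, rfl⟩
        exact ⟨e, ⟨x, hx, he⟩, rfl⟩
      · rintro ⟨e, ⟨x, hx, he⟩, rfl⟩
        exact ⟨x, hx, e, he, rfl⟩
    rw [h1, Finset.card_product, Finset.card_univ, Fintype.card_fin]
    have h2 : (s.card : ℚ) = ∑ e ∈ s.biUnion grp, (1 / (g e.2 : ℚ)) := by
      rw [Finset.sum_biUnion (fun x _ y _ hxy => hgrp_disj x y hxy)]
      have h3 : ∀ x ∈ s, ∑ e ∈ grp x, (1 / (g e.2 : ℚ)) = 1 := by
        intro x _
        rw [Finset.sum_congr rfl (fun e he => by rw [(hgrp_mem x e he).2]), Finset.sum_const,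
          hgrp_card, nsmul_eq_mul]
        have := hg x.1.1 x.1.2
        have h4 : (g x.1.1 : ℚ) ≠ 0 := by positivity
        field_simp
      rw [Finset.sum_congr rfl h3]
      simp
    have h3 : ∑ e ∈ s.biUnion grp, (1 / (g e.2 : ℚ)) ≤
        ((s.biUnion grp).image Prod.fst).card * q := by
      rw [← Finset.sum_fiberwise_of_maps_to
        (t := (s.biUnion grp).image Prod.fst) (g := Prod.fst)
        (fun e he => Finset.mem_image_of_mem _ he)]
      rw [← nsmul_eq_mul, ← Finset.sum_const]
      apply Finset.sum_le_sum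
      intro u _
      refine le_trans ?_ (hq u)
      apply Finset.sum_le_sum_of_subset_of_nonneg
      · intro e he
        rw [Finset.mem_filter, Finset.mem_biUnion] at he
        obtain ⟨⟨x, _, hx⟩, h5⟩ := he
        have h6 := hgrp_mem x e hx
        rw [Finset.mem_filter]
        refine ⟨h6.1, h5, ?_⟩
        rw [h6.2]
        exact x.1.2
      · intro e _ _
        positivity
    rw [← h2] at h3
    exact_mod_cast h3
  obtain ⟨f, hf1, hf2⟩ := (Finset.all_card_le_biUnion_card_iff_exists_injective t).1 hhall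
  let Ef : {w // w ∈ W} × Fin m → V × V := fun x => ((f x).1, x.1.1)
  have hEf : ∀ x, Ef x ∈ grp x := by
    intro x
    have h1 := hf2 x
    simp only [t, Finset.mem_product, Finset.mem_image, Finset.mem_univ, and_true] at h1
    obtain ⟨e, he, he1⟩ := h1
    have h2 := (hgrp_mem x e he).2
    have h3 : Ef x = e := Prod.ext he1.symm h2.symm
    rw [h3]
    exact he
  have hEinj : Function.Injective Ef := by
    intro x y hxy
    by_contra hne
    have h1 := hgrp_disj x y hne
    rw [Finset.disjoint_left] at h1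
    exact h1 (hEf x) (hxy ▸ hEf y)
  refine ⟨univ.image Ef, ?_, ?_, ?_, ?_⟩
  · intro e he
    rw [Finset.mem_image] at he
    obtain ⟨x, _, rfl⟩ := he
    exact (hgrp_mem x _ (hEf x)).1
  · intro w hw
    have h1 : (univ.image Ef).filter (fun e => e.2 = w) =
        univ.image (fun a : Fin m => Ef (⟨w, hw⟩, a)) := by
      ext e
      simp only [Finset.mem_filter, Finset.mem_image, Finset.mem_univ, true_and]
      constructor
      · rintro ⟨⟨⟨⟨w', hw'⟩, a⟩, rfl⟩, h2⟩
        simp only [Ef] at h2
        subst h2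
        exact ⟨a, rfl⟩
      · rintro ⟨a, rfl⟩
        exact ⟨⟨_, rfl⟩, rfl⟩
    rw [h1, Finset.card_image_of_injective, Finset.card_univ, Fintype.card_fin]
    intro a b hab
    exact (Prod.ext_iff.1 (hEinj hab)).2
  · intro w hw
    rw [Finset.filter_eq_empty_iff]
    intro e he
    rw [Finset.mem_image] at he
    obtain ⟨x, _, rfl⟩ := he
    intro h
    apply hw
    rw [← h]
    exact x.1.2
  · intro u
    have h1 : (univ.image Ef).filter (fun e => e.1 = u) ⊆
        (univ.filter (fun x : {w // w ∈ W} × Fin m => (f x).1 = u)).image Ef := by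
      intro e he
      rw [Finset.mem_filter, Finset.mem_image] at he
      obtain ⟨⟨x, _, rfl⟩, h2⟩ := he
      exact Finset.mem_image_of_mem _ (Finset.mem_filter.2 ⟨Finset.mem_univ _, h2⟩)
    refine (Finset.card_le_card h1).trans (Finset.card_image_le.trans ?_)
    have h2 : (univ.filter (fun x : {w // w ∈ W} × Fin m => (f x).1 = u)).card ≤
        (univ : Finset (Fin q)).card := by
      apply Finset.card_le_card_of_injOn (fun x => (f x).2)
      · intro x _
        exact Finset.mem_coe.2 (Finset.mem_univ _)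
      · intro x hx y hy hxy
        simp only [Finset.coe_filter, Finset.mem_univ, true_and, Set.mem_ofPred_eq] at hx hy
        exact hf1 (Prod.ext (hx.trans hy.symm) hxy)
    simpa using h2

end Pool.Agent.H162R2.Sparse
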