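import Pool.Agent.H162R2.Sparse.Peel

/-!
# The structural lemma for sparse graphs
-/

set_option autoImplicit false
set_option linter.unusedSectionVars false

namespace Pool.Agent.H162R2.Sparse

open Finset

variable {V : Type} [Fintype V] [DecidableEq V]

/-- neighbours -/
noncomputable def nb (G : SimpleGraph V) (v : V) : Finset V := by
  classical exact Finset.univ.filter (fun w => G.Adj v w)

/-- degree -/
noncomputable def dg (G : SimpleGraph V) (v : V) : ℕ := (nb G v).card

/-- ordered adjacent pairs -/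
noncomputable def pr (G : SimpleGraph V) : Finset (V × V) := by
  classical exact Finset.univ.filter (fun e => G.Adj e.1 e.2)

/-- adjacent pairs whose first member lies in `X` -/
noncomputable def ES (G : SimpleGraph V) (X : Finset V) : Finset (V × V) :=
  (pr G).filter (fun e => e.1 ∈ X)

theorem mem_nb (G : SimpleGraph V) (v w : V) : w ∈ nb G v ↔ G.Adj v w := by
  simp [nb]

theorem mem_pr (G : SimpleGraph V) (e : V × V) : e ∈ pr G ↔ G.Adj e.1 e.2 := by
  simp [pr]

theorem mem_ES (G : SimpleGraph V) (X : Finset V) (e : V × V) :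
    e ∈ ES G X ↔ G.Adj e.1 e.2 ∧ e.1 ∈ X := by
  simp [ES, mem_pr]

/-- every vertex set spans at most `a * |X|` ordered adjacent pairs -/
def Dens (G : SimpleGraph V) (a : ℝ) : Prop :=
  ∀ X : Finset V, (((pr G).filter (fun e => e.1 ∈ X ∧ e.2 ∈ X)).card : ℝ) ≤ a * X.card

theorem card_ES (G : SimpleGraph V) (X : Finset V) : (ES G X).card = ∑ u ∈ X, dg G u := by
  rw [Finset.card_eq_sum_card_fiberwise (f := Prod.fst) (t := X)]
  · apply Finset.sum_congr rfl
    intro u hu
    unfold dg
    apply Finset.card_bij (fun e _ => e.2)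
    · intro e he
      rw [Finset.mem_filter, mem_ES] at he
      rw [mem_nb, ← he.2]
      exact he.1.1
    · intro e he f hf h
      rw [Finset.mem_filter] at he hf
      exact Prod.ext (he.2.trans hf.2.symm) h
    · intro w hw
      rw [mem_nb] at hw
      refine ⟨(u, w), ?_, rfl⟩
      rw [Finset.mem_filter, mem_ES]
      exact ⟨⟨hw, hu⟩, rfl⟩
  · intro e he
    rw [Finset.mem_coe, mem_ES] at he
    exact he.2

theorem hh_ES_le (G : SimpleGraph V) (X : Finset V) (w : V) : hh (ES G X) w ≤ dg G w := by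
  unfold hh dg
  apply Finset.card_le_card_of_injOn (fun e => e.1)
  · intro e he
    rw [Finset.mem_coe, Finset.mem_filter, mem_ES] at he
    rw [Finset.mem_coe, mem_nb, ← he.2]
    exact he.1.1.symm
  · intro e he f hf h
    rw [Finset.mem_coe, Finset.mem_filter] at he hf
    exact Prod.ext h (he.2.trans hf.2.symm)

theorem struct (G : SimpleGraph V) (D : ℕ) (a : ℝ) (hD : ∀ v, dg G v ≤ D) (hdens : Dens G a)
    (ha : 34 * a * (1 + Real.log D) ≤ D) (hedge : ∃ u v, G.Adj u v)
    (hno : ∀ u v, G.Adj u v → (dg G u : ℝ) ≤ 2 * a → D + 2 ≤ dg G u + dg G v) :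
    ∃ X : Finset V, X.Nonempty ∧ (∀ u ∈ X, 1 ≤ dg G u ∧ (dg G u : ℝ) ≤ 2 * a ∧
        34 * (a : ℝ) ≤ D) ∧
      (∀ u ∈ X, ∀ v ∈ X, ¬ G.Adj u v) ∧
      ∀ u, ∑ e ∈ (ES G X).filter (fun e => e.1 = u), (1 / (hh (ES G X) e.2 : ℚ)) ≤ 1 / 16 := by
  classical
  let T : Finset V := Finset.univ.filter (fun v => 1 ≤ dg G v)
  let S : Finset V := T.filter (fun v => (dg G v : ℝ) ≤ 2 * a)
  let R : Finset V := T.filter (fun v => ¬ (dg G v : ℝ) ≤ 2 * a)
  let B : Finset V := Finset.univ.filter (fun w => ∃ u ∈ S, G.Adj u w)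
  have hdpos : ∀ u v, G.Adj u v → 1 ≤ dg G v := by
    intro u v h
    unfold dg
    rw [Nat.one_le_iff_ne_zero, Finset.card_ne_zero]
    exact ⟨u, (mem_nb G v u).2 h.symm⟩
  have hmT : ∀ v, v ∈ T ↔ 1 ≤ dg G v := by
    intro v
    simp [T]
  have hT0 : T.Nonempty := by
    obtain ⟨u, v, h⟩ := hedge
    exact ⟨v, (hmT v).2 (hdpos u v h)⟩
  have hTpos : (0 : ℝ) < T.card := by
    exact_mod_cast Finset.card_pos.2 hT0
  have hsumT : (∑ v ∈ T, (dg G v : ℝ)) ≤ a * T.card := by
    have h1 := hdens T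
    refine le_trans ?_ h1
    have h2 := card_ES G T
    have h3 : (∑ v ∈ T, (dg G v : ℝ)) = ((ES G T).card : ℝ) := by
      rw [h2]
      push_cast
      rfl
    rw [h3]
    have h4 : (ES G T).card ≤ ((pr G).filter (fun e => e.1 ∈ T ∧ e.2 ∈ T)).card := by
      apply Finset.card_le_card
      intro e he
      rw [mem_ES] at he
      rw [Finset.mem_filter, mem_pr]
      exact ⟨he.1, he.2, (hmT _).2 (hdpos _ _ he.1)⟩
    exact_mod_cast h4
  have ha1 : 1 ≤ a := by
    have h1 : (T.card : ℝ) ≤ ∑ v ∈ T, (dg G v : ℝ) := by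
      have h2 : (T.card : ℝ) = ∑ v ∈ T, (1 : ℝ) := by simp
      rw [h2]
      apply Finset.sum_le_sum
      intro v hv
      exact_mod_cast (hmT v).1 hv
    have h3 : (T.card : ℝ) ≤ a * T.card := h1.trans hsumT
    by_contra hcon
    push Not at hcon
    nlinarith
  have hlog : 0 ≤ Real.log (D : ℝ) := Real.log_natCast_nonneg D
  have ha34 : 34 * a ≤ D := by nlinarith
  have hRS : (S.card : ℝ) + R.card = T.card := by
    have h1 := Finset.card_filter_add_card_filter_not (s := T) (fun v => (dg G v : ℝ) ≤ 2 * a)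
    exact_mod_cast h1
  have hR : 2 * a * R.card ≤ a * T.card := by
    refine le_trans ?_ hsumT
    have h1 : (∑ v ∈ R, (dg G v : ℝ)) ≤ ∑ v ∈ T, (dg G v : ℝ) := by
      apply Finset.sum_le_sum_of_subset_of_nonneg (Finset.filter_subset _ _)
      intro v _ _
      positivity
    refine le_trans ?_ h1
    have h2 : 2 * a * (R.card : ℝ) = ∑ v ∈ R, (2 * a) := by
      rw [Finset.sum_const, nsmul_eq_mul]
      ring
    rw [h2]
    apply Finset.sum_le_sum
    intro v hv
    rw [Finset.mem_filter] at hv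
    linarith [hv.2]
  have hS : (T.card : ℝ) ≤ 2 * S.card := by
    have h1 : 2 * (R.card : ℝ) ≤ T.card := by
      by_contra hcon
      push Not at hcon
      nlinarith
    linarith
  have hBT : B ⊆ T := by
    intro w hw
    rw [Finset.mem_filter] at hw
    obtain ⟨_, u, _, h⟩ := hw
    exact (hmT w).2 (hdpos u w h)
  have hB : ((D : ℝ) + 2 - 2 * a) * B.card ≤ 2 * a * S.card := by
    have h1 : ((D : ℝ) + 2 - 2 * a) * B.card ≤ ∑ v ∈ B, (dg G v : ℝ) := by
      have h2 : ((D : ℝ) + 2 - 2 * a) * B.card = ∑ v ∈ B, ((D : ℝ) + 2 - 2 * a) := by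
        rw [Finset.sum_const, nsmul_eq_mul]
        ring
      rw [h2]
      apply Finset.sum_le_sum
      intro w hw
      rw [Finset.mem_filter] at hw
      obtain ⟨_, u, hu, h⟩ := hw
      rw [Finset.mem_filter] at hu
      have h3 := hno u w h hu.2
      have h4 : (D : ℝ) + 2 ≤ dg G u + dg G w := by exact_mod_cast h3
      linarith [hu.2]
    have h2 : (∑ v ∈ B, (dg G v : ℝ)) ≤ ∑ v ∈ T, (dg G v : ℝ) := by
      apply Finset.sum_le_sum_of_subset_of_nonneg hBT
      intro v _ _
      positivity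
    nlinarith
  have hHW : 16 * (HW (ES G S) : ℝ) < (S.card : ℝ) := by
    have h1 := HW_le (ES G S) D (fun w => (hh_ES_le G S w).trans (hD w)) B (by
      intro e he
      rw [mem_ES] at he
      rw [Finset.mem_filter]
      exact ⟨Finset.mem_univ _, e.1, he.2, he.1⟩)
    have hBn : (0 : ℝ) ≤ B.card := by positivity
    have hSpos : (0 : ℝ) < S.card := by linarith
    have h2 : 16 * ((B.card : ℝ) * (1 + Real.log D)) < S.card := by
      rcases hBn.lt_or_eq with h3 | h3
      · have h4 : (32 * a * (1 + Real.log D) + 2) * B.card ≤ 2 * a * S.card := by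
          refine le_trans ?_ hB
          apply mul_le_mul_of_nonneg_right _ hBn
          nlinarith
        by_contra hcon
        push Not at hcon
        nlinarith
      · rw [← h3]
        simpa using hSpos
    linarith
  obtain ⟨X, hX1, hX2, hX3⟩ := peel (ES G S) S (by
    intro e he
    exact ((mem_ES G S e).1 he).2) (by
    have h1 : ((16 * HW (ES G S) : ℚ) : ℝ) < ((S.card : ℚ) : ℝ) := by
      push_cast
      exact hHW
    exact_mod_cast h1)
  have hEX : (ES G S).filter (fun e => e.1 ∈ X) = ES G X := by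
    ext e
    rw [Finset.mem_filter, mem_ES, mem_ES]
    constructor
    · rintro ⟨⟨h1, _⟩, h2⟩
      exact ⟨h1, h2⟩
    · rintro ⟨h1, h2⟩
      exact ⟨⟨h1, hX1 h2⟩, h2⟩
  rw [hEX] at hX3
  refine ⟨X, hX2, ?_, ?_, hX3⟩
  · intro u hu
    have h1 := hX1 hu
    rw [Finset.mem_filter] at h1
    exact ⟨(hmT u).1 h1.1, h1.2, ha34⟩
  · intro u hu v hv h
    have h1 := hX1 hu
    have h2 := hX1 hv
    rw [Finset.mem_filter] at h1 h2
    have h3 := hno u v h h1.2
    have h4 : (D : ℝ) + 2 ≤ dg G u + dg G v := by exact_mod_cast h3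
    linarith [h1.2, h2.2]

end Pool.Agent.H162R2.Sparse
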